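import Mathlib
import Pool.Agent.R701.GrigTree

/-!
The Grigorchuk group on the binary tree: words, sections, the homomorphism `θ` onto the dihedral
group `⟨a, d⟩` and the Lysenok endomorphism `σ(g) = (g, θ(g))`.
-/

namespace Pool.Agent.R653.Lys

open Pool.Agent.R701.Grig Equiv

/-- words in the letters `a` (`none`), `b`, `c`, `d` -/
abbrev Wd := List (Option L)

/-- the value of a word -/
abbrev wv (w : Wd) : Perm X := data.wv w

/-- parity of the number of `a`s -/
def par : Wd → Bool
  | [] => false
  | none :: w => !(par w)
  | some _ :: w => par w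

/-- sections of letters -/
def sL : Bool → Option L → Wd
  | _, none => []
  | false, some .b => [some .c]
  | false, some .c => [some .d]
  | false, some .d => [some .b]
  | true, some .b => [none]
  | true, some .c => [none]
  | true, some .d => []

/-- sections of words -/
def sec : Bool → Wd → Wd
  | _, [] => []
  | x, l :: w => sL (xor x (par w)) l ++ sec x w

lemma wv_nil : wv [] = 1 := rfl
lemma wv_cons (l : Option L) (w : Wd) : wv (l :: w) = data.ov l * wv w := by simp [wv]
lemma wv_append (w w' : Wd) : wv (w ++ w') = wv w * wv w' := by simp [wv]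

lemma ov_none : data.ov none = A := rfl
lemma ov_b : data.ov (some .b) = pair (B 1) A := B2
lemma ov_c : data.ov (some .c) = pair (B 0) A := B1
lemma ov_d : data.ov (some .d) = pair (B 2) 1 := B0
lemma ov_b' : data.ov (some .b) = B 2 := rfl
lemma ov_c' : data.ov (some .c) = B 1 := rfl
lemma ov_d' : data.ov (some .d) = B 0 := rfl

lemma ov_apply (l : Option L) (x : Bool) (u : X) :
    data.ov l (x :: u) = (xor x (par [l])) :: wv (sL x l) u := by
  rcases l with _ | _ | _ | _
  · cases x <;> rfl
  · rw [ov_b]; cases x <;> rfl
  · rw [ov_c]; cases x <;> rfl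
  · rw [ov_d]; cases x <;> rfl

lemma par_cons (l : Option L) (w : Wd) : par (l :: w) = xor (par [l]) (par w) := by
  cases l <;> simp [par]

lemma par_append (w w' : Wd) : par (w ++ w') = xor (par w) (par w') := by
  induction w with
  | nil => simp [par]
  | cons l w ih =>
    rw [List.cons_append, par_cons, ih, par_cons l w]
    cases par [l] <;> cases par w <;> cases par w' <;> rfl

lemma wv_apply (w : Wd) (x : Bool) (u : X) :
    wv w (x :: u) = (xor x (par w)) :: wv (sec x w) u := by
  induction w with
  | nil => simp [par, sec]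
  | cons l w ih =>
    rw [wv_cons, Perm.mul_apply, ih, ov_apply, sec, wv_append, Perm.mul_apply]
    congr 1
    rw [par_cons l w]
    cases par [l] <;> cases par w <;> cases x <;> rfl

lemma ov_nil (l : Option L) : data.ov l [] = [] := by
  rcases l with _ | _ | _ | _
  · rfl
  · rw [ov_b]; rfl
  · rw [ov_c]; rfl
  · rw [ov_d]; rfl

lemma wv_apply_nil (w : Wd) : wv w [] = [] := by
  induction w with
  | nil => rfl
  | cons l w ih => rw [wv_cons, Perm.mul_apply, ih, ov_nil]

lemma sec_append (w w' : Wd) (x : Bool) :
    sec x (w ++ w') = sec (xor x (par w')) w ++ sec x w' := by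
  induction w with
  | nil => simp [sec]
  | cons l w ih =>
    rw [List.cons_append, sec, ih, sec, par_append, List.append_assoc]
    congr 2
    cases par w <;> cases par w' <;> cases x <;> rfl

lemma par_congr {w w' : Wd} (h : wv w = wv w') : par w = par w' := by
  have := congrArg (fun g : Perm X => g [false]) h
  simp only [wv_apply, wv_apply_nil] at this
  simpa using this

lemma sec_congr {w w' : Wd} (h : wv w = wv w') (x : Bool) : wv (sec x w) = wv (sec x w') := by
  ext1 u
  have := congrArg (fun g : Perm X => g (x :: u)) h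
  simp only [wv_apply] at this
  exact (List.cons.inj this).2

/-- the sign invariants -/
def s : ℕ → Wd → Bool
  | 0, w => par w
  | n + 1, w => xor (s n (sec false w)) (s n (sec true w))

lemma s_append (n : ℕ) : ∀ w w' : Wd, s n (w ++ w') = xor (s n w) (s n w') := by
  induction n with
  | zero => exact par_append
  | succ n ih =>
    intro w w'
    rw [s, sec_append, sec_append, ih, ih, s, s]
    generalize s n (sec false w') = p
    generalize s n (sec true w') = q
    cases par w'
    · change xor (xor (s n (sec false w)) p) (xor (s n (sec true w)) q) = _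
      generalize s n (sec false w) = p'
      generalize s n (sec true w) = q'
      cases p <;> cases q <;> cases p' <;> cases q' <;> rfl
    · change xor (xor (s n (sec true w)) p) (xor (s n (sec false w)) q) = _
      generalize s n (sec false w) = p'
      generalize s n (sec true w) = q'
      cases p <;> cases q <;> cases p' <;> cases q' <;> rfl

lemma s_congr (n : ℕ) : ∀ {w w' : Wd}, wv w = wv w' → s n w = s n w' := by
  induction n with
  | zero => intro w w' h; exact par_congr h
  | succ n ih =>
    intro w w' h
    rw [s, s, ih (sec_congr h false), ih (sec_congr h true)]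

/-- images of letters under `θ` -/
def θL : Option L → Wd
  | none => [some .d]
  | some .b => []
  | some .c => [none]
  | some .d => [none]

/-- images of letters under `σ` -/
def σL : Option L → Wd
  | none => [none, some .c, none]
  | some .b => [some .d]
  | some .c => [some .b]
  | some .d => [some .c]

/-- substitution -/
def θw (w : Wd) : Wd := w.flatMap θL
/-- substitution -/
def σw (w : Wd) : Wd := w.flatMap σL

lemma θw_cons (l : Option L) (w : Wd) : θw (l :: w) = θL l ++ θw w := by simp [θw]
lemma σw_cons (l : Option L) (w : Wd) : σw (l :: w) = σL l ++ σw w := by simp [σw]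
lemma θw_append (w w' : Wd) : θw (w ++ w') = θw w ++ θw w' := by simp [θw]
lemma σw_append (w w' : Wd) : σw (w ++ w') = σw w ++ σw w' := by simp [σw]

lemma AA : A * A = 1 := data.aa
lemma dd : B 0 * B 0 = 1 := B_mul_self 0

/-- the element `d a d` -/
def E : Perm X := B 0 * A * B 0

lemma EE : E * E = 1 := by
  rw [E]
  calc B 0 * A * B 0 * (B 0 * A * B 0) = B 0 * A * (B 0 * B 0) * A * B 0 := by group
    _ = B 0 * (A * A) * B 0 := by rw [dd]; group
    _ = 1 := by rw [AA, mul_one, dd]

lemma AE : A * E = E * A := by
  ext1 x
  rw [E, B0]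
  rcases x with (_ | ⟨_ | _, w⟩) <;> simp [Perm.mul_apply]

lemma dA : B 0 * A = E * B 0 := by
  rw [E, mul_assoc, dd, mul_one]

lemma dE : B 0 * E = A * B 0 := by
  rw [E]
  calc B 0 * (B 0 * A * B 0) = (B 0 * B 0) * A * B 0 := by group
    _ = A * B 0 := by rw [dd, one_mul]

/-- the elements of the dihedral group `⟨a, d⟩` -/
def D (x y r : Bool) : Perm X :=
  (if x then A else 1) * (if y then E else 1) * (if r then B 0 else 1)

lemma D_A (x y r : Bool) : A * D x y r = D (!x) y r := by
  cases x
  · simp [D, mul_assoc]
  · simp only [D, if_true, Bool.not_true, Bool.false_eq_true, if_false, one_mul]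
    rw [← mul_assoc, ← mul_assoc, AA, one_mul]

lemma D_d (x y r : Bool) : B 0 * D x y r = D y x (!r) := by
  have h1 : B 0 * (if x then A else 1) = (if x then E else 1) * B 0 := by
    cases x
    · simp
    · simpa using dA
  have h2 : B 0 * (if y then E else 1) = (if y then A else 1) * B 0 := by
    cases y
    · simp
    · simpa using dE
  have h3 : B 0 * (if r then B 0 else 1) = (if !r then B 0 else 1) := by
    cases r
    · simp
    · simpa using dd
  have h4 : (if x then E else 1) * (if y then A else 1) = (if y then A else 1) * (if x then E else 1)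
      := by
    cases x <;> cases y <;> simp [AE]
  rw [D, D, ← mul_assoc, ← mul_assoc, h1, mul_assoc _ (B 0), h2, ← mul_assoc, h4, mul_assoc _ (B 0),
    h3]

lemma s2_none (x : Bool) : s 2 (sL x none) = false := by cases x <;> decide
lemma s2_b (x : Bool) : s 2 (sL x (some .b)) = false := by cases x <;> decide
lemma s2_c (x : Bool) : s 2 (sL x (some .c)) = !x := by cases x <;> decide
lemma s2_d (x : Bool) : s 2 (sL x (some .d)) = !x := by cases x <;> decide

lemma wv_θw (w : Wd) :
    wv (θw w) = D (s 2 (sec (par w) w)) (s 2 (sec (!(par w)) w)) (par w) := by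
  induction w with
  | nil => rfl
  | cons l w ih =>
    rw [θw_cons, wv_append, ih]
    simp only [sec, s_append]
    rcases l with _ | _ | _ | _
    · have e1 : wv (θL none) = B 0 := rfl
      rw [e1, D_d, par, s2_none, s2_none]
      cases par w <;> simp
    · have e1 : wv (θL (some .b)) = 1 := rfl
      rw [e1, one_mul, par, s2_b, s2_b]
      cases par w <;> simp
    · have e1 : wv (θL (some .c)) = A := rfl
      rw [e1, D_A, par, s2_c, s2_c]
      cases par w <;> simp
    · have e1 : wv (θL (some .d)) = A := rfl
      rw [e1, D_A, par, s2_d, s2_d]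
      cases par w <;> simp

lemma θw_congr {w w' : Wd} (h : wv w = wv w') : wv (θw w) = wv (θw w') := by
  rw [wv_θw, wv_θw, par_congr h, s_congr 2 (sec_congr h _), s_congr 2 (sec_congr h _)]

lemma pair_mul (g h g' h' : Perm X) : pair g h * pair g' h' = pair (g * g') (h * h') :=
  data.ψ_mul g h g' h'

lemma pair_one : pair 1 1 = 1 := data.ψ_one

lemma A_pair (g h : Perm X) : A * pair g h = pair h g * A := data.swap g h

lemma wv_σw (w : Wd) : wv (σw w) = pair (wv w) (wv (θw w)) := by
  induction w with
  | nil => exact pair_one.symm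
  | cons l w ih =>
    rw [σw_cons, wv_append, ih, wv_cons, θw_cons, wv_append, ← pair_mul]
    congr 1
    rcases l with _ | _ | _ | _
    · have e1 : wv (σL none) = A * B 1 * A := rfl
      have e2 : wv (θL none) = B 0 := rfl
      rw [e1, e2, B1, A_pair, mul_assoc, AA, mul_one, ov_none]
    · exact B0
    · exact B2
    · exact B1

lemma σw_congr {w w' : Wd} (h : wv w = wv w') : wv (σw w) = wv (σw w') := by
  rw [wv_σw, wv_σw, h, θw_congr h]

lemma wv_mem (w : Wd) : wv w ∈ H := by
  induction w with
  | nil => exact H.one_mem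
  | cons l w ih =>
    rw [wv_cons]
    exact H.mul_mem (Subgroup.subset_closure ⟨l, rfl⟩) ih

lemma ov_mul_self (l : Option L) : data.ov l * data.ov l = 1 := by
  rcases l with _ | l
  · exact data.aa
  · exact data.vv l

lemma wv_reverse (w : Wd) : wv w.reverse = (wv w)⁻¹ := by
  induction w with
  | nil => simp
  | cons l w ih =>
    rw [List.reverse_cons, wv_append, ih, wv_cons l w, mul_inv_rev, wv_cons, wv_nil, mul_one]
    congr 1
    exact eq_inv_of_mul_eq_one_left (ov_mul_self l)

lemma exists_wv {g : Perm X} (hg : g ∈ H) : ∃ w, wv w = g := by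
  induction hg using Subgroup.closure_induction with
  | mem x hx =>
    obtain ⟨t, rfl⟩ := hx
    exact ⟨[t], by rw [wv_cons, wv_nil, mul_one]⟩
  | one => exact ⟨[], rfl⟩
  | mul x y _ _ hx hy =>
    obtain ⟨u, rfl⟩ := hx
    obtain ⟨v, rfl⟩ := hy
    exact ⟨u ++ v, wv_append u v⟩
  | inv x _ hx =>
    obtain ⟨u, rfl⟩ := hx
    exact ⟨u.reverse, wv_reverse u⟩

/-- the element of the Grigorchuk group given by a word -/
def toH (w : Wd) : H := ⟨wv w, wv_mem w⟩

/-- some word for `g` -/
noncomputable def wd (g : H) : Wd := (exists_wv g.2).choose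

lemma wv_wd (g : H) : wv (wd g) = g := (exists_wv g.2).choose_spec

lemma toH_wd (g : H) : toH (wd g) = g := Subtype.ext (wv_wd g)

lemma toH_append (u v : Wd) : toH (u ++ v) = toH u * toH v := Subtype.ext (wv_append u v)

lemma toH_surj (g : H) : ∃ w, toH w = g := ⟨wd g, toH_wd g⟩

/-- the homomorphism `θ : a ↦ d, b ↦ 1, c ↦ a, d ↦ a` -/
noncomputable def θ : H →* H :=
  MonoidHom.mk' (fun g => toH (θw (wd g))) (by
    intro g h
    rw [← toH_append, ← θw_append]
    apply Subtype.ext
    apply θw_congr
    rw [wv_append, wv_wd, wv_wd, wv_wd]; rfl)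

/-- the Lysenok endomorphism `σ : a ↦ aca, b ↦ d, c ↦ b, d ↦ c` -/
noncomputable def σ : H →* H :=
  MonoidHom.mk' (fun g => toH (σw (wd g))) (by
    intro g h
    rw [← toH_append, ← σw_append]
    apply Subtype.ext
    apply σw_congr
    rw [wv_append, wv_wd, wv_wd, wv_wd]; rfl)

lemma θ_toH (w : Wd) : θ (toH w) = toH (θw w) :=
  Subtype.ext (θw_congr (wv_wd (toH w)))

lemma σ_toH (w : Wd) : σ (toH w) = toH (σw w) :=
  Subtype.ext (σw_congr (wv_wd (toH w)))

lemma coe_σ (g : H) : (σ g : Perm X) = pair g (θ g) := by
  obtain ⟨w, rfl⟩ := toH_surj g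
  rw [σ_toH, θ_toH]
  exact wv_σw w

lemma σ_injective : Function.Injective σ := by
  intro g h hgh
  have h1 := congrArg (fun g : H => (g : Perm X)) hgh
  simp only [coe_σ] at h1
  apply Subtype.ext
  ext1 u
  have := congrArg (fun f : Perm X => f (false :: u)) h1
  simpa using this

/-- `θ` takes values in the dihedral group -/
lemma θ_eq_D (g : H) : ∃ x y r, (θ g : Perm X) = D x y r := by
  obtain ⟨w, rfl⟩ := toH_surj g
  rw [θ_toH]
  exact ⟨_, _, _, wv_θw w⟩

/-- the relation between the two sections of an element -/
def SR (g h : H) : Prop := θ g = θ (θ h) ∧ θ h = θ (θ g)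

lemma SR.mul {g h g' h' : H} (h1 : SR g h) (h2 : SR g' h') : SR (g * g') (h * h') := by
  constructor
  · rw [map_mul, h1.1, h2.1, map_mul, map_mul]
  · rw [map_mul, h1.2, h2.2, map_mul, map_mul]

lemma SR.symm {g h : H} (h1 : SR g h) : SR h g := ⟨h1.2, h1.1⟩

lemma SR_letter (l : Option L) : SR (toH (sL true l)) (toH (sL false l)) := by
  rcases l with _ | _ | _ | _ <;> (unfold SR; simp only [θ_toH]) <;> exact ⟨rfl, rfl⟩

lemma sec_rel (w : Wd) : SR (toH (sec true w)) (toH (sec false w)) := by
  induction w with
  | nil =>
    have : toH [] = 1 := rfl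
    simp [sec, this, SR]
  | cons l w ih =>
    simp only [sec, toH_append]
    cases par w
    · exact (SR_letter l).mul ih
    · exact (SR_letter l).symm.mul ih

end Pool.Agent.R653.Lys
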