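import Mathlib
import Pool.Agent.R653.Lys.Grp

/-!
Counting nontrivial sections.
-/

namespace Pool.Agent.R653.Lys

open Pool.Agent.R701.Grig Equiv

/-- `g` has trivial section at `v` -/
def Triv (g : Perm X) (v : X) : Prop := ∀ u, g (v ++ u) = g v ++ u

/-- number of vertices `z ++ v` with `|v| = n` at which `g` has a nontrivial section -/
noncomputable def N (g : Perm X) (z : X) (n : ℕ) : ℕ :=
  {v : X | v.length = n ∧ ¬ Triv g (z ++ v)}.ncard

lemma fin_len (n : ℕ) : {v : X | v.length = n}.Finite := List.finite_length_eq Bool n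

lemma N_fin (g : Perm X) (z : X) (n : ℕ) : {v : X | v.length = n ∧ ¬ Triv g (z ++ v)}.Finite :=
  (fin_len n).subset (fun _ h => h.1)

/-- tree automorphisms -/
def IsAut (g : Perm X) : Prop := ∀ v, (g v).length = v.length ∧ ∀ u, g v <+: g (v ++ u)

lemma isAut_wv (v : X) : ∀ w : Wd, (wv w v).length = v.length ∧ ∀ u, wv w v <+: wv w (v ++ u) := by
  induction v with
  | nil => intro w; simp [wv_apply_nil]
  | cons x v ih =>
    intro w
    obtain ⟨h1, h2⟩ := ih (sec x w)
    refine ⟨by rw [wv_apply, List.length_cons, h1, List.length_cons], fun u => ?_⟩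
    rw [List.cons_append, wv_apply, wv_apply]
    exact List.prefix_cons_iff.2 (Or.inr ⟨_, rfl, h2 u⟩)

lemma isAut (g : H) : IsAut g := by
  obtain ⟨w, rfl⟩ := toH_surj g
  exact fun v => isAut_wv v w

lemma IsAut.split {g : Perm X} (hg : IsAut g) (z v : X) :
    g (z ++ v) = g z ++ (g (z ++ v)).drop z.length := by
  obtain ⟨t, ht⟩ := (hg z).2 v
  rw [← ht, ← (hg z).1, List.drop_left]

lemma N_mul (f : Perm X) {g : Perm X} (hg : IsAut g) (z : X) (n : ℕ) :
    N (f * g) z n ≤ N f (g z) n + N g z n := by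
  set Sg := {v : X | v.length = n ∧ ¬ Triv g (z ++ v)} with hSg
  set Sf := {v : X | v.length = n ∧ ¬ Triv f (g z ++ v)} with hSf
  set S := {v : X | v.length = n ∧ ¬ Triv (f * g) (z ++ v)} with hS
  have h1 : S ⊆ (S \ Sg) ∪ Sg := by intro v hv; by_cases h : v ∈ Sg <;> simp [hv, h]
  have hfin : (S \ Sg).Finite := (fin_len n).subset (fun v h => h.1.1)
  have h2 : S.ncard ≤ (S \ Sg).ncard + Sg.ncard :=
    (Set.ncard_le_ncard h1 (hfin.union (N_fin g z n))).trans (Set.ncard_union_le _ _)
  have h3 : (S \ Sg).ncard ≤ Sf.ncard := by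
    apply Set.ncard_le_ncard_of_injOn (fun v => (g (z ++ v)).drop z.length)
      (ht := N_fin f (g z) n)
    · rintro v ⟨⟨hv1, hv2⟩, hv3⟩
      have hT : Triv g (z ++ v) := by
        by_contra h; exact hv3 ⟨hv1, h⟩
      refine ⟨?_, ?_⟩
      · rw [List.length_drop, (hg _).1, List.length_append, hv1]; omega
      · intro hf
        apply hv2
        rw [← hg.split z v] at hf
        intro u
        rw [Perm.mul_apply, Perm.mul_apply, hT u, hf u]
    · rintro v ⟨⟨hv1, -⟩, -⟩ v' ⟨⟨hv1', -⟩, -⟩ hvv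
      have e1 := hg.split z v
      have e2 := hg.split z v'
      simp only at hvv
      rw [hvv, ← e2] at e1
      exact List.append_cancel_left (g.injective e1)
  calc N (f * g) z n = S.ncard := rfl
    _ ≤ _ := h2
    _ ≤ _ := Nat.add_le_add_right h3 _

lemma N_le_one_zero (g : Perm X) (z : X) : N g z 0 ≤ 1 := by
  have : {v : X | v.length = 0 ∧ ¬ Triv g (z ++ v)} ⊆ {[]} := by
    rintro v ⟨h, -⟩
    exact List.length_eq_zero_iff.1 h
  calc N g z 0 ≤ ({[]} : Set X).ncard := Set.ncard_le_ncard this (Set.finite_singleton _)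
    _ = 1 := Set.ncard_singleton _

/-- transfer to a section -/
lemma N_sec {g h : Perm X} {z z' : X} (hs : ∀ u, g (z ++ u) = z' ++ h u) (n : ℕ) :
    N g z n = N h [] n := by
  unfold N
  congr 1
  ext v
  simp only [Set.mem_ofPred_eq, List.nil_append]
  apply and_congr_right
  intro _
  apply not_congr
  constructor
  · intro H u
    have := H u
    rw [List.append_assoc, hs, hs, List.append_assoc] at this
    exact List.append_cancel_left this
  · intro H u
    rw [List.append_assoc, hs, hs, List.append_assoc, H u]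

lemma N_pair_false (g h : Perm X) (z : X) (n : ℕ) : N (pair g h) (false :: z) n = N g z n := by
  unfold N
  congr 1
  ext v
  simp [Triv]

lemma N_pair_true (g h : Perm X) (z : X) (n : ℕ) : N (pair g h) (true :: z) n = N h z n := by
  unfold N
  congr 1
  ext v
  simp [Triv]

lemma N_pair (g h : Perm X) (n : ℕ) : N (pair g h) [] (n + 1) = N g [] n + N h [] n := by
  have e : {v : X | v.length = n + 1 ∧ ¬ Triv (pair g h) ([] ++ v)} =
      (List.cons false) '' {v : X | v.length = n ∧ ¬ Triv g ([] ++ v)} ∪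
      (List.cons true) '' {v : X | v.length = n ∧ ¬ Triv h ([] ++ v)} := by
    ext v
    simp only [List.nil_append, Set.mem_ofPred_eq, Set.mem_union, Set.mem_image]
    constructor
    · rintro ⟨h1, h2⟩
      rcases v with _ | ⟨_ | _, v⟩
      · simp at h1
      · left
        refine ⟨v, ⟨by simpa using h1, fun h3 => h2 fun u => ?_⟩, rfl⟩
        simpa using h3 u
      · right
        refine ⟨v, ⟨by simpa using h1, fun h3 => h2 fun u => ?_⟩, rfl⟩
        simpa using h3 u
    · rintro (⟨v, ⟨h1, h2⟩, rfl⟩ | ⟨v, ⟨h1, h2⟩, rfl⟩)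
      · refine ⟨by simpa using h1, fun h3 => h2 fun u => ?_⟩
        simpa using h3 u
      · refine ⟨by simpa using h1, fun h3 => h2 fun u => ?_⟩
        simpa using h3 u
  unfold N
  rw [e, Set.ncard_union_eq (hs := (N_fin g [] n).image _) (ht := (N_fin h [] n).image _),
    Set.ncard_image_of_injective _ (List.cons_injective),
    Set.ncard_image_of_injective _ (List.cons_injective)]
  rw [Set.disjoint_left]
  rintro _ ⟨v, -, rfl⟩ ⟨v', -, h⟩
  simp at h

lemma N_one (z : X) (n : ℕ) : N 1 z n = 0 := by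
  unfold N
  convert Set.ncard_empty X
  ext v
  simp [Triv]

lemma N_A_pos (n : ℕ) : N A [] (n + 1) = 0 := by
  unfold N
  convert Set.ncard_empty X
  ext v
  simp only [List.nil_append, Set.mem_ofPred_eq, Set.mem_empty_iff_false, iff_false, not_and,
    not_not]
  intro h u
  cases v with
  | nil => simp at h
  | cons x v => simp

lemma N_A (n : ℕ) : N A [] n ≤ 1 := by
  cases n with
  | zero => exact N_le_one_zero _ _
  | succ n => rw [N_A_pos]; omega

lemma N_B (n : ℕ) : N (B 0) [] n ≤ 2 ∧ N (B 1) [] n ≤ 2 ∧ N (B 2) [] n ≤ 2 := by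
  induction n with
  | zero =>
    refine ⟨(N_le_one_zero _ _).trans (by omega), (N_le_one_zero _ _).trans (by omega),
      (N_le_one_zero _ _).trans (by omega)⟩
  | succ n ih =>
    have h0 : N (B 0) [] (n + 1) = N (B 2) [] n := by rw [B0, N_pair, N_one]; rfl
    have h1 : N (B 1) [] (n + 1) = N (B 0) [] n + N A [] n := by rw [B1, N_pair]
    have h2 : N (B 2) [] (n + 1) = N (B 1) [] n + N A [] n := by rw [B2, N_pair]
    rw [h0, h1, h2]
    cases n with
    | zero =>
      have := N_le_one_zero (B 0) []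
      have := N_le_one_zero (B 1) []
      have := N_le_one_zero (B 2) []
      have := N_le_one_zero A []
      omega
    | succ n => rw [N_A_pos]; omega

/-- elements of the four group `{1, b, c, d}` -/
def IsV (v : Perm X) : Prop := v = 1 ∨ v = B 0 ∨ v = B 1 ∨ v = B 2

lemma IsV.mul {v w : Perm X} (hv : IsV v) (hw : IsV w) : IsV (v * w) := by
  have h01 : B 0 * B 1 = B 2 := B_mul _ _ _ (by decide) (by decide) (by decide)
  have h02 : B 0 * B 2 = B 1 := B_mul _ _ _ (by decide) (by decide) (by decide)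
  have h10 : B 1 * B 0 = B 2 := B_mul _ _ _ (by decide) (by decide) (by decide)
  have h12 : B 1 * B 2 = B 0 := B_mul _ _ _ (by decide) (by decide) (by decide)
  have h20 : B 2 * B 0 = B 1 := B_mul _ _ _ (by decide) (by decide) (by decide)
  have h21 : B 2 * B 1 = B 0 := B_mul _ _ _ (by decide) (by decide) (by decide)
  have hs := B_mul_self
  unfold IsV
  rcases hv with rfl | rfl | rfl | rfl <;> rcases hw with rfl | rfl | rfl | rfl <;>
    simp [h01, h02, h10, h12, h20, h21, hs]

/-- products with at most `k` letters `a` -/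
inductive Cx : ℕ → Perm X → Prop
  | base (k : ℕ) (v : Perm X) (hv : IsV v) : Cx k v
  | step (k : ℕ) (g v : Perm X) (h : Cx k g) (hv : IsV v) : Cx (k + 1) (g * A * v)

lemma Cx.succ {k : ℕ} {g : Perm X} (h : Cx k g) : Cx (k + 1) g := by
  induction h with
  | base k v hv => exact .base _ _ hv
  | step k g v h hv ih => exact .step _ _ _ ih hv

lemma Cx.mono {k l : ℕ} {g : Perm X} (h : Cx k g) (hkl : k ≤ l) : Cx l g := by
  induction hkl with
  | refl => exact h
  | step _ ih => exact ih.succ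

lemma Cx.mulV {k : ℕ} {g v : Perm X} (h : Cx k g) (hv : IsV v) : Cx k (g * v) := by
  cases h with
  | base k w hw => exact .base _ _ (hw.mul hv)
  | step k g w h hw => rw [mul_assoc]; exact .step _ _ _ h (hw.mul hv)

lemma isV_one : IsV 1 := Or.inl rfl

lemma Cx.mulA {k : ℕ} {g : Perm X} (h : Cx k g) : Cx (k + 1) (g * A) := by
  rw [← mul_one (g * A)]
  exact .step _ _ _ h isV_one

lemma Cx.mul {j k : ℕ} {f g : Perm X} (hf : Cx j f) (hg : Cx k g) : Cx (j + k) (f * g) := by
  induction hg with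
  | base k v hv => exact (hf.mono (by omega)).mulV hv
  | step k g v h hv ih =>
    have : f * (g * A * v) = (f * g) * A * v := by group
    rw [this]
    exact .step _ _ _ ih hv

lemma cx_A : Cx 1 A := by simpa using (Cx.base 0 1 isV_one).mulA

lemma sec_V {v : Perm X} (hv : IsV v) : ∃ v' v'' : Perm X, v = pair v' v'' ∧ IsV v' ∧
    (v'' = 1 ∨ v'' = A) := by
  rcases hv with rfl | rfl | rfl | rfl
  · exact ⟨1, 1, pair_one.symm, isV_one, Or.inl rfl⟩
  · exact ⟨B 2, 1, B0, by simp [IsV], Or.inl rfl⟩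
  · exact ⟨B 0, A, B1, by simp [IsV], Or.inr rfl⟩
  · exact ⟨B 1, A, B2, by simp [IsV], Or.inr rfl⟩

lemma Cx.sec {k : ℕ} {g : Perm X} (h : Cx k g) :
    (∃ (h : Perm X) (x' : Bool), (∀ u, g (false :: u) = x' :: h u) ∧ Cx ((k + 1) / 2) h) ∧
    (∃ (h : Perm X) (x' : Bool), (∀ u, g (true :: u) = x' :: h u) ∧ Cx (k / 2 + 1) h) := by
  induction h with
  | base k v hv =>
    obtain ⟨v', v'', rfl, h1, h2⟩ := sec_V hv
    refine ⟨⟨v', false, fun u => rfl, .base _ _ h1⟩, ⟨v'', true, fun u => rfl, ?_⟩⟩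
    rcases h2 with rfl | rfl
    · exact .base _ _ isV_one
    · exact cx_A.mono (by omega)
  | step k g v h hv ih =>
    obtain ⟨⟨h0, x0, e0, c0⟩, ⟨h1, x1, e1, c1⟩⟩ := ih
    obtain ⟨v', v'', rfl, hv1, hv2⟩ := sec_V hv
    refine ⟨⟨h1 * v', x1, fun u => ?_, ?_⟩, ⟨h0 * v'', x0, fun u => ?_, ?_⟩⟩
    · simp [Perm.mul_apply, e1]
    · have : (k + 1 + 1) / 2 = k / 2 + 1 := by omega
      rw [this]
      exact c1.mulV hv1
    · simp [Perm.mul_apply, e0]
    · rcases hv2 with rfl | rfl
      · rw [mul_one]; exact c0.succ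
      · exact c0.mulA

lemma Cx.sec_iter {M : ℕ} (z : X) : ∀ {k : ℕ} {g : Perm X}, Cx k g → k ≤ M * 2 ^ z.length + 2 →
    ∃ (h : Perm X) (z' : X), (∀ u, g (z ++ u) = z' ++ h u) ∧ Cx (M + 2) h := by
  induction z with
  | nil =>
    intro k g h hk
    exact ⟨g, [], fun u => rfl, h.mono (by simpa using hk)⟩
  | cons x z ih =>
    intro k g h hk
    have hk' : k / 2 + 1 ≤ M * 2 ^ z.length + 2 := by
      rw [List.length_cons, pow_succ] at hk
      have : M * (2 ^ z.length * 2) = 2 * (M * 2 ^ z.length) := by ring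
      omega
    obtain ⟨h1, x', e1, c1⟩ : ∃ (h : Perm X) (x' : Bool), (∀ u, g (x :: u) = x' :: h u) ∧
        Cx (k / 2 + 1) h := by
      cases x
      · obtain ⟨h1, x', e1, c1⟩ := h.sec.1
        exact ⟨h1, x', e1, c1.mono (by omega)⟩
      · exact h.sec.2
    obtain ⟨h2, z', e2, c2⟩ := ih c1 hk'
    exact ⟨h2, x' :: z', fun u => by rw [List.cons_append, e1, e2]; rfl, c2⟩

lemma isAut_V {v : Perm X} (hv : IsV v) : IsAut v := by
  have : ∃ g : H, (g : Perm X) = v := by
    rcases hv with rfl | rfl | rfl | rfl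
    · exact ⟨1, rfl⟩
    · exact ⟨toH [some .d], by change wv [some .d] = _; rw [wv_cons, wv_nil, mul_one]; rfl⟩
    · exact ⟨toH [some .c], by change wv [some .c] = _; rw [wv_cons, wv_nil, mul_one]; rfl⟩
    · exact ⟨toH [some .b], by change wv [some .b] = _; rw [wv_cons, wv_nil, mul_one]; rfl⟩
  obtain ⟨g, rfl⟩ := this
  exact isAut g

lemma isAut_A : IsAut A := by
  have : A = toH [none] := by change _ = wv [none]; rw [wv_cons, wv_nil, mul_one]; rfl
  rw [this]
  exact isAut _

lemma N_V {v : Perm X} (hv : IsV v) (n : ℕ) : N v [] n ≤ 2 := by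
  have := N_B n
  rcases hv with rfl | rfl | rfl | rfl
  · rw [N_one]; omega
  · exact this.1
  · exact this.2.1
  · exact this.2.2

lemma V_nil {v : Perm X} (hv : IsV v) : v [] = [] :=
  List.length_eq_zero_iff.1 (by rw [(isAut_V hv []).1]; rfl)

lemma Cx.N_le {k : ℕ} {g : Perm X} (h : Cx k g) (n : ℕ) : N g [] n ≤ 3 * k + 2 := by
  induction h with
  | base k v hv => exact (N_V hv n).trans (by omega)
  | step k g v h hv ih =>
    have h1 := N_mul (g * A) (isAut_V hv) [] n
    rw [V_nil hv] at h1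
    have h2 := N_mul g isAut_A [] n
    rw [A_nil] at h2
    have h3 := N_V hv n
    have h4 := N_A n
    omega

lemma cx_D (x y r : Bool) : Cx 2 (D x y r) := by
  have h0 : IsV (B 0) := by simp [IsV]
  have hE : Cx 1 E := by
    have := ((Cx.base 0 (B 0) h0).mulA).mulV h0
    exact this
  have h1 : Cx 1 (if x then A else 1) := by
    cases x
    · exact .base _ _ isV_one
    · exact cx_A
  have h2 : Cx 1 (if y then E else 1) := by
    cases y
    · exact .base _ _ isV_one
    · exact hE
  have h3 : IsV (if r then B 0 else 1) := by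
    cases r
    · exact isV_one
    · exact h0
  exact (h1.mul h2).mulV h3

lemma cx_θ (g : H) : Cx 2 (θ g) := by
  obtain ⟨x, y, r, h⟩ := θ_eq_D g
  rw [h]
  exact cx_D x y r

lemma N_θ (g : H) (z : X) (n : ℕ) : N (θ g) z n ≤ 8 := by
  obtain ⟨h, z', e1, c⟩ := (cx_θ g).sec_iter (M := 0) z (by omega)
  rw [N_sec e1]
  exact c.N_le n

lemma N_σ_succ (g : H) (n : ℕ) : N (σ g) [] (n + 1) ≤ N g [] n + 8 := by
  rw [coe_σ, N_pair]
  exact Nat.add_le_add_left (N_θ g [] n) _

lemma N_high (n : ℕ) : ∀ g : H, N (σ^[n] g) [] n ≤ 8 * n + 1 := by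
  induction n with
  | zero => intro g; exact N_le_one_zero _ _
  | succ n ih =>
    intro g
    rw [Function.iterate_succ_apply']
    have := N_σ_succ (σ^[n] g) n
    have := ih g
    omega

lemma N_mid {c : ℕ} {g : H} (hg : ∀ n, N g [] n ≤ c + 1) (m : ℕ) :
    ∀ n, N (σ^[m] g) [] n ≤ 8 * m + c + 1 := by
  induction m with
  | zero => intro n; simpa using hg n
  | succ m ih =>
    intro n
    cases n with
    | zero => exact (N_le_one_zero _ _).trans (by omega)
    | succ n =>
      rw [Function.iterate_succ_apply']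
      have := N_σ_succ (σ^[m] g) n
      have := ih n
      omega

lemma N_shift (g : H) (n : ℕ) (z : X) : N (σ^[z.length] g) z n ≤ N g [] n + 8 := by
  induction z with
  | nil => simp
  | cons x z ih =>
    rw [List.length_cons, Function.iterate_succ_apply', coe_σ]
    cases x
    · rw [N_pair_false]; exact ih
    · rw [N_pair_true]; exact (N_θ _ _ _).trans (by omega)

lemma cx_σ {k : ℕ} {g : Perm X} (h : Cx k g) : ∃ g' : H, (g' : Perm X) = g ∧ Cx (2 * k) (σ g') := by
  have hV : ∀ v, IsV v → ∃ g' : H, (g' : Perm X) = v ∧ IsV (σ g') := by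
    have hw : ∀ l l' : Option L, σL l = [l'] → (σ (toH [l]) : Perm X) = data.ov l' := by
      intro l l' h
      rw [σ_toH]
      change wv (σw [l]) = _
      rw [σw_cons, h]
      simp [σw, wv]
    intro v hv
    rcases hv with rfl | rfl | rfl | rfl
    · exact ⟨1, rfl, by rw [map_one]; exact isV_one⟩
    · refine ⟨toH [some .d], by change wv [some .d] = _; rw [wv_cons, wv_nil, mul_one]; rfl, ?_⟩
      rw [hw _ (some .c) rfl, ov_c']; simp [IsV]
    · refine ⟨toH [some .c], by change wv [some .c] = _; rw [wv_cons, wv_nil, mul_one]; rfl, ?_⟩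
      rw [hw _ (some .b) rfl, ov_b']; simp [IsV]
    · refine ⟨toH [some .b], by change wv [some .b] = _; rw [wv_cons, wv_nil, mul_one]; rfl, ?_⟩
      rw [hw _ (some .d) rfl, ov_d']; simp [IsV]
  induction h with
  | base k v hv =>
    obtain ⟨g', h1, h2⟩ := hV v hv
    exact ⟨g', h1, .base _ _ h2⟩
  | step k g v h hv ih =>
    obtain ⟨g', h1, h2⟩ := ih
    obtain ⟨v', h3, h4⟩ := hV v hv
    refine ⟨g' * toH [none] * v', ?_, ?_⟩
    · rw [Subgroup.coe_mul, Subgroup.coe_mul, h1, h3]
      rfl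
    · rw [map_mul, map_mul, Subgroup.coe_mul, Subgroup.coe_mul]
      have e1 : (σ (toH [none]) : Perm X) = A * B 1 * A := by
        rw [σ_toH]; rfl
      rw [e1, mul_add, mul_one]
      have h1 : Cx 2 (A * B 1 * A) := (cx_A.mulV (by simp [IsV])).mulA
      exact (h2.mul h1).mulV h4

lemma cx_σ' {k : ℕ} {g : H} (h : Cx k g) : Cx (2 * k) (σ g) := by
  obtain ⟨g', h1, h2⟩ := cx_σ h
  have : g' = g := Subtype.ext h1
  rwa [this] at h2

lemma cx_σ_iter {k : ℕ} {g : H} (h : Cx k g) (m : ℕ) : Cx (2 ^ m * k) (σ^[m] g : H) := by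
  induction m with
  | zero => simpa using h
  | succ m ih =>
    rw [Function.iterate_succ_apply']
    have := cx_σ' ih
    rwa [← mul_assoc, ← pow_succ'] at this

/-- every element is a product of finitely many letters -/
lemma exists_cx (g : H) : ∃ k, Cx k g := by
  obtain ⟨w, rfl⟩ := toH_surj g
  induction w with
  | nil => exact ⟨0, .base _ _ isV_one⟩
  | cons l w ih =>
    obtain ⟨k, hk⟩ := ih
    refine ⟨1 + k, ?_⟩
    change Cx _ (wv (l :: w))
    rw [wv_cons]
    refine Cx.mul ?_ hk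
    rcases l with _ | _ | _ | _
    · exact cx_A
    · exact .base _ _ (by rw [ov_b']; simp [IsV])
    · exact .base _ _ (by rw [ov_c']; simp [IsV])
    · exact .base _ _ (by rw [ov_d']; simp [IsV])

end Pool.Agent.R653.Lys
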