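import Mathlib
import Pool.Agent.R653.Lys.Count

/-!
Products of elements `σ^{J+η}(h)`: the number of nontrivial sections is polynomially bounded.
-/

namespace Pool.Agent.R653.Lys

open Pool.Agent.R701.Grig Equiv

/-- the product of the elements `σ^{J+η}(h)` -/
noncomputable def V (J : ℕ) (l : List (ℤ × H)) : H :=
  (l.map fun p => σ^[((J : ℤ) + p.1).toNat] p.2).prod

lemma V_nil' (J : ℕ) : V J [] = 1 := rfl
lemma V_cons (J : ℕ) (p : ℤ × H) (l : List (ℤ × H)) :
    V J (p :: l) = σ^[((J : ℤ) + p.1).toNat] p.2 * V J l := by simp [V]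
lemma V_append (J : ℕ) (l l' : List (ℤ × H)) : V J (l ++ l') = V J l * V J l' := by simp [V]

lemma iter_mul (n : ℕ) (g h : H) : σ^[n] (g * h) = σ^[n] g * σ^[n] h := by
  exact iterate_map_mul σ n g h

lemma iter_one (n : ℕ) : σ^[n] (1 : H) = 1 := iterate_map_one σ n

lemma V_high (J n : ℕ) (l : List (ℤ × H)) (hl : ∀ p ∈ l, (n : ℤ) ≤ p.1) :
    ∃ Q : H, V J l = σ^[J] (σ^[n] Q) := by
  induction l with
  | nil => exact ⟨1, by rw [iter_one, iter_one]; rfl⟩
  | cons p l ih =>
    obtain ⟨Q, hQ⟩ := ih (fun p hp => hl p (by simp [hp]))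
    have hp := hl p (by simp)
    refine ⟨σ^[(p.1 - n).toNat] p.2 * Q, ?_⟩
    rw [V_cons, hQ, iter_mul, iter_mul]
    congr 1
    rw [← Function.iterate_add_apply, ← Function.iterate_add_apply]
    congr 1
    omega

lemma sum_two_pow (J M : ℕ) (l : List ℕ) (h1 : ∀ x ∈ l, x < J) (h2 : ∀ x, l.count x ≤ M) :
    (l.map fun x => 2 ^ x).sum ≤ M * 2 ^ J := by
  classical
  rw [Finset.sum_list_map_count]
  calc ∑ m ∈ l.toFinset, l.count m • 2 ^ m ≤ ∑ m ∈ l.toFinset, M * 2 ^ m := by
        apply Finset.sum_le_sum
        intro m _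
        rw [smul_eq_mul]
        exact Nat.mul_le_mul_right _ (h2 m)
    _ ≤ ∑ m ∈ Finset.range J, M * 2 ^ m := by
        apply Finset.sum_le_sum_of_subset
        intro m hm
        rw [Finset.mem_range]
        exact h1 m (by simpa using hm)
    _ = M * (2 ^ J - 1) := by
        rw [← Finset.mul_sum, Nat.geomSum_eq (le_refl 2)]; simp
    _ ≤ M * 2 ^ J := Nat.mul_le_mul_left _ (Nat.sub_le _ _)

lemma V_cx (J m : ℕ) (l : List (ℤ × H)) (hm : ∀ p ∈ l, Cx m p.2) :
    Cx (((l.map fun p => ((J : ℤ) + p.1).toNat).map fun x => 2 ^ x).sum * m) (V J l) := by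
  induction l with
  | nil => exact .base _ _ isV_one
  | cons p l ih =>
    have h1 := ih (fun p hp => hm p (by simp [hp]))
    have h2 := cx_σ_iter (hm p (by simp)) ((J : ℤ) + p.1).toNat
    rw [V_cons, Subgroup.coe_mul, List.map_cons, List.map_cons, List.sum_cons, add_mul]
    exact h2.mul h1

/-- middle values -/
def Mid (n : ℕ) (p : ℤ × H) : Prop := 0 ≤ p.1 ∧ p.1 < n

instance (n : ℕ) : DecidablePred (Mid n) := fun p => inferInstanceAs (Decidable (_ ∧ _))

/-- a list without middle values is entirely high or entirely negative -/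
lemma no_mid (n : ℕ) (l : List (ℤ × H)) (hc : l.IsChain fun p q : ℤ × H => |p.1 - q.1| ≤ (n : ℤ))
    (hm : ∀ p ∈ l, ¬ Mid n p) : (∀ p ∈ l, (n : ℤ) ≤ p.1) ∨ (∀ p ∈ l, p.1 < 0) := by
  induction l with
  | nil => left; simp
  | cons p l ih =>
    have hp := hm p (by simp)
    have ih' := ih hc.tail (fun p hp => hm p (by simp [hp]))
    unfold Mid at hp
    cases l with
    | nil =>
      by_cases h : (n : ℤ) ≤ p.1
      · left; simpa using h
      · right; simp; omega
    | cons q l =>
      have hpq : |p.1 - q.1| ≤ (n : ℤ) := (List.isChain_cons_cons.1 hc).1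
      rw [abs_le] at hpq
      rcases ih' with h | h
      · left
        have := h q (by simp)
        intro r hr
        rcases List.mem_cons.1 hr with rfl | hr
        · omega
        · exact h r hr
      · right
        have := h q (by simp)
        intro r hr
        rcases List.mem_cons.1 hr with rfl | hr
        · omega
        · exact h r hr

/-- the bound for blocks -/
def bd (n M m : ℕ) : ℕ := 8 * n + 3 * (M * m + m) + 20

lemma block_bound (J n M m : ℕ) : ∀ (k : ℕ) (l : List (ℤ × H)), l.length ≤ k →
    (l.IsChain fun p q : ℤ × H => |p.1 - q.1| ≤ (n : ℤ)) → (∀ p ∈ l, Cx m p.2) → (∀ p ∈ l, 0 ≤ (J : ℤ) + p.1) →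
    (∀ x : ℤ, (l.map Prod.fst).count x ≤ M) → ∀ z : X, z.length = J →
    N (V J l) z n ≤ (2 * l.countP (Mid n) + 1) * bd n M m := by
  intro k
  induction k with
  | zero =>
    intro l hl _ _ _ _ z _
    have : l = [] := List.length_eq_zero_iff.1 (by omega)
    subst this
    change N 1 z n ≤ _
    rw [N_one]; omega
  | succ k ih =>
    intro l hl hc hcx hJ hcount z hz
    by_cases hmid : ∃ p ∈ l, Mid n p
    · obtain ⟨p, hp, hpm⟩ := hmid
      obtain ⟨s, r, rfl⟩ := List.append_of_mem hp
      have hc1 : s.IsChain fun p q : ℤ × H => |p.1 - q.1| ≤ (n : ℤ) := hc.left_of_append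
      have hc2 : r.IsChain fun p q : ℤ × H => |p.1 - q.1| ≤ (n : ℤ) := hc.right_of_append.tail
      have hs := ih s (by simp at hl; omega) hc1 (fun q hq => hcx q (by simp [hq]))
        (fun q hq => hJ q (by simp [hq])) (fun x => le_trans (by simp) (hcount x))
      have hr := ih r (by simp at hl; omega) hc2 (fun q hq => hcx q (by simp [hq]))
        (fun q hq => hJ q (by simp [hq])) (fun x => le_trans (by
          simp only [List.map_append, List.map_cons, List.count_append]
          have : List.count x (List.map Prod.fst r) ≤ List.count x (p.1 :: List.map Prod.fst r) :=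
            List.Sublist.count_le _ (List.sublist_cons_self _ _)
          omega) (hcount x))
      -- middle factor
      have hpJ := hJ p (by simp)
      have hmidN : ∀ z' : X, z'.length = J → N (σ^[((J : ℤ) + p.1).toNat] p.2) z' n ≤ bd n M m := by
        intro z' hz'
        obtain ⟨q, hq⟩ := Int.eq_ofNat_of_zero_le hpm.1
        have e1 : ((J : ℤ) + p.1).toNat = z'.length + q := by omega
        rw [e1, Function.iterate_add_apply]
        refine (N_shift _ n z').trans ?_
        have h1 := N_mid (c := 3 * m + 2) (g := p.2)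
          (fun n => ((hcx p (by simp)).N_le n).trans (by omega)) q n
        have h2 : q < n := by have := hpm.2; omega
        unfold bd
        have : 0 ≤ M * m := Nat.zero_le _
        omega
      rw [V_append, V_cons, Subgroup.coe_mul, Subgroup.coe_mul]
      have haut : IsAut (V J r : Perm X) := isAut _
      have haut2 : IsAut ((σ^[((J : ℤ) + p.1).toNat] p.2 : H) : Perm X) := isAut _
      have haut3 : IsAut (((σ^[((J : ℤ) + p.1).toNat] p.2 : H) : Perm X) * (V J r : Perm X)) := by
        rw [← Subgroup.coe_mul]; exact isAut _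
      have g1 := N_mul (V J s : Perm X) haut3 z n
      have g2 := N_mul ((σ^[((J : ℤ) + p.1).toNat] p.2 : H) : Perm X) haut z n
      have l1 : ((V J r : Perm X) z).length = J := by rw [(haut z).1, hz]
      have l2 : ((((σ^[((J : ℤ) + p.1).toNat] p.2 : H) : Perm X) * (V J r : Perm X)) z).length = J := by
        rw [(haut3 z).1, hz]
      have g3 := hmidN _ l1
      have g4 := hs _ l2
      have g5 := hr z hz
      rw [List.countP_append, List.countP_cons_of_pos (by simpa using hpm)]
      generalize List.countP (fun b => decide (Mid n b)) s = a at *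
      generalize List.countP (fun b => decide (Mid n b)) r = b at *
      calc _ ≤ _ := g1
        _ ≤ (2 * a + 1) * bd n M m + (bd n M m + (2 * b + 1) * bd n M m) := by omega
        _ = _ := by ring
    · push Not at hmid
      have hb : N (V J l) z n ≤ bd n M m := by
        rcases no_mid n l hc hmid with h | h
        · obtain ⟨Q, hQ⟩ := V_high J n l h
          rw [hQ, ← hz]
          refine (N_shift _ n z).trans ?_
          have := N_high n Q
          unfold bd
          have : 0 ≤ M * m := Nat.zero_le _
          omega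
        · have h1 := V_cx J m l hcx
          have h2 := sum_two_pow J M (l.map fun p => ((J : ℤ) + p.1).toNat) (by
            intro x hx
            obtain ⟨p, hp, rfl⟩ := List.mem_map.1 hx
            have := h p hp
            have := hJ p hp
            omega) (by
            intro x
            refine le_trans ?_ (hcount ((x : ℤ) - J))
            have : (l.map fun p => ((J : ℤ) + p.1).toNat) = (l.map Prod.fst).map
                (fun y => ((J : ℤ) + y).toNat) := by
              rw [List.map_map]; rfl
            rw [this, List.count, List.count, List.countP_map]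
            apply List.countP_mono_left
            intro y hy hxy
            obtain ⟨p, hp, rfl⟩ := List.mem_map.1 hy
            have := hJ p hp
            simp only [Function.comp_apply, beq_iff_eq] at hxy ⊢
            omega)
          have h3 : Cx (M * m * 2 ^ z.length) (V J l : Perm X) := by
            apply h1.mono
            rw [hz]
            calc _ ≤ M * 2 ^ J * m := Nat.mul_le_mul_right _ h2
              _ = _ := by ring
          obtain ⟨h', z', e1, c1⟩ := h3.sec_iter (M := M * m) z (by omega)
          rw [N_sec e1]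
          refine (c1.N_le n).trans ?_
          unfold bd
          omega
      calc _ ≤ bd n M m := hb
        _ ≤ _ := Nat.le_mul_of_pos_left _ (by omega)

lemma countP_mid (n M : ℕ) (l : List (ℤ × H)) (h : ∀ x : ℤ, (l.map Prod.fst).count x ≤ M) :
    l.countP (Mid n) ≤ M * n := by
  classical
  have h1 : l.countP (Mid n) = (l.filter (Mid n)).length := by
    rw [List.countP_eq_length_filter]
  have h2 : (l.filter (Mid n)).length =
      (((l.filter (Mid n)).map Prod.fst).map (fun _ => 1)).sum := by
    rw [List.map_const', List.sum_replicate, List.length_map]; simp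
  rw [h1, h2, Finset.sum_list_map_count]
  calc ∑ m ∈ ((l.filter (Mid n)).map Prod.fst).toFinset,
        ((l.filter (Mid n)).map Prod.fst).count m • 1
      ≤ ∑ m ∈ ((l.filter (Mid n)).map Prod.fst).toFinset, M := by
        apply Finset.sum_le_sum
        intro x _
        rw [smul_eq_mul, mul_one]
        exact le_trans (List.Sublist.count_le _ (List.Sublist.map _ List.filter_sublist)) (h x)
    _ ≤ ∑ m ∈ Finset.Ico (0 : ℤ) n, M := by
        apply Finset.sum_le_sum_of_subset
        intro x hx
        rw [List.mem_toFinset] at hx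
        obtain ⟨p, hp, rfl⟩ := List.mem_map.1 hx
        have := (List.mem_filter.1 hp).2
        have h3 : Mid n p := by simpa using this
        exact Finset.mem_Ico.2 h3
    _ = M * n := by simp [mul_comm]

/-- the values `θ(σ^j(l))` of letters -/
noncomputable def ft (j : ℕ) (l : Option L) : H := θ (σ^[j] (toH [l]))

lemma ft_a (j : ℕ) : ft (j + 1) none = ft j none * ft j (some .c) * ft j none := by
  unfold ft
  rw [Function.iterate_succ_apply, σ_toH]
  have : toH (σw [none]) = toH [none] * toH [some .c] * toH [none] := by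
    rw [← toH_append, ← toH_append]; rfl
  rw [this, iter_mul, iter_mul, map_mul, map_mul]

lemma ft_b (j : ℕ) : ft (j + 1) (some .b) = ft j (some .d) := by
  unfold ft
  rw [Function.iterate_succ_apply, σ_toH]; rfl

lemma ft_c (j : ℕ) : ft (j + 1) (some .c) = ft j (some .b) := by
  unfold ft
  rw [Function.iterate_succ_apply, σ_toH]; rfl

lemma ft_d (j : ℕ) : ft (j + 1) (some .d) = ft j (some .c) := by
  unfold ft
  rw [Function.iterate_succ_apply, σ_toH]; rfl

lemma ft_zero : ft 0 none = toH [some .d] ∧ ft 0 (some .b) = 1 ∧ ft 0 (some .c) = toH [none] ∧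
    ft 0 (some .d) = toH [none] := by
  unfold ft
  refine ⟨?_, ?_, ?_, ?_⟩ <;> (rw [Function.iterate_zero, id, θ_toH]; rfl)

lemma let_sq (l : Option L) : toH [l] * toH [l] = 1 := by
  apply Subtype.ext
  change wv [l] * wv [l] = 1
  rw [wv_cons, wv_nil, mul_one]
  exact ov_mul_self l

lemma ft_ge (j : ℕ) :
    (ft (j + 2) none = 1 ∧ ft (j + 2) (some .b) = toH [none] ∧ ft (j + 2) (some .c) = toH [none] ∧
      ft (j + 2) (some .d) = 1) ∨
    (ft (j + 2) none = toH [none] ∧ ft (j + 2) (some .b) = 1 ∧
      ft (j + 2) (some .c) = toH [none] ∧ ft (j + 2) (some .d) = toH [none]) ∨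
    (ft (j + 2) none = toH [none] ∧ ft (j + 2) (some .b) = toH [none] ∧
      ft (j + 2) (some .c) = 1 ∧ ft (j + 2) (some .d) = toH [none]) := by
  have haa := let_sq none
  have hdd := let_sq (some .d)
  induction j with
  | zero =>
    left
    obtain ⟨h1, h2, h3, h4⟩ := ft_zero
    have e1 : ft 1 none = toH [some .d] * toH [none] * toH [some .d] := by rw [ft_a, h1, h3]
    have e3 : ft 1 (some .c) = 1 := by rw [ft_c, h2]
    refine ⟨?_, ?_, ?_, ?_⟩
    · rw [ft_a, e1, e3, mul_one]
      calc toH [some .d] * toH [none] * toH [some .d] * (toH [some .d] * toH [none] * toH [some .d])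
          = toH [some .d] * toH [none] * (toH [some .d] * toH [some .d]) * toH [none] *
            toH [some .d] := by group
        _ = toH [some .d] * (toH [none] * toH [none]) * toH [some .d] := by rw [hdd]; group
        _ = 1 := by rw [haa, mul_one, hdd]
    · rw [ft_b, ft_d, h3]
    · rw [ft_c, ft_b, h4]
    · rw [ft_d, e3]
  | succ j ih =>
    have g1 : ft (j + 1 + 2) none = ft (j + 2) none * ft (j + 2) (some .c) * ft (j + 2) none :=
      ft_a (j + 2)
    have g2 : ft (j + 1 + 2) (some .b) = ft (j + 2) (some .d) := ft_b (j + 2)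
    have g3 : ft (j + 1 + 2) (some .c) = ft (j + 2) (some .b) := ft_c (j + 2)
    have g4 : ft (j + 1 + 2) (some .d) = ft (j + 2) (some .c) := ft_d (j + 2)
    rw [g1, g2, g3, g4]
    rcases ih with ⟨h1, h2, h3, h4⟩ | ⟨h1, h2, h3, h4⟩ | ⟨h1, h2, h3, h4⟩
    · right; left
      rw [h1, h2, h3, h4]; simp
    · right; right
      rw [h1, h2, h3, h4]
      refine ⟨?_, rfl, rfl, rfl⟩
      rw [haa, one_mul]
    · left
      rw [h1, h2, h3, h4]
      refine ⟨?_, rfl, rfl, rfl⟩
      rw [mul_one, haa]

lemma abab_iter (j : ℕ) : θ (σ^[j] (toH [none, some .b, none, some .b])) = 1 := by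
  have haa := let_sq none
  have hdd := let_sq (some .d)
  have e : toH [none, some .b, none, some .b] =
      toH [none] * toH [some .b] * (toH [none] * toH [some .b]) := by
    rw [← toH_append, ← toH_append]; rfl
  have e2 : θ (σ^[j] (toH [none, some .b, none, some .b])) =
      ft j none * ft j (some .b) * (ft j none * ft j (some .b)) := by
    rw [e, iter_mul, iter_mul, map_mul, map_mul]; rfl
  rw [e2]
  obtain ⟨h1, h2, h3, h4⟩ := ft_zero
  rcases j with _ | _ | j
  · rw [h1, h2, mul_one, hdd]
  · have e1 : ft 1 none = toH [some .d] * toH [none] * toH [some .d] := by rw [ft_a, h1, h3]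
    rw [e1, ft_b, h4]
    have hAE : toH [some .d] * toH [none] * toH [some .d] * toH [none] =
        toH [none] * (toH [some .d] * toH [none] * toH [some .d]) := by
      apply Subtype.ext
      change E * A = A * E
      exact AE.symm
    have hyy : toH [some .d] * toH [none] * toH [some .d] *
        (toH [some .d] * toH [none] * toH [some .d]) = 1 := by
      calc _ = toH [some .d] * toH [none] * (toH [some .d] * toH [some .d]) * toH [none] *
            toH [some .d] := by group
        _ = toH [some .d] * (toH [none] * toH [none]) * toH [some .d] := by rw [hdd]; group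
        _ = 1 := by rw [haa, mul_one, hdd]
    rw [hAE, mul_assoc (toH [none]), ← mul_assoc _ (toH [none]) (_ * _ * _), hAE,
      mul_assoc (toH [none]), hyy, mul_one, haa]
  · rcases ft_ge j with ⟨h1, h2, h3, h4⟩ | ⟨h1, h2, h3, h4⟩ | ⟨h1, h2, h3, h4⟩
    · rw [h1, h2, one_mul, haa]
    · rw [h1, h2, mul_one, haa]
    · rw [h1, h2, haa, one_mul]

/-- elements with all level-`n` sections nontrivial -/
lemma exists_deep (n : ℕ) : ∃ h : H, (∀ j, θ (σ^[j] h) = 1) ∧ N h [] n = 2 ^ n := by
  induction n with
  | zero =>
    have hne : toH [none, some .b, none, some .b] ≠ 1 := by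
      intro h
      have := congrArg (fun g : H => (g : Perm X) [false, false]) h
      exact absurd this (by decide)
    refine ⟨toH [none, some .b, none, some .b], abab_iter, ?_⟩
    · have h1 : ¬ Triv ((toH [none, some .b, none, some .b] : H) : Perm X) [] := by
        intro h
        apply hne
        apply Subtype.ext
        ext1 u
        have := h u
        rw [List.nil_append] at this
        rw [this]
        have h2 : ((toH [none, some .b, none, some .b] : H) : Perm X) [] = [] := wv_apply_nil _
        rw [h2]; rfl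
      have : {v : X | v.length = 0 ∧
          ¬ Triv ((toH [none, some .b, none, some .b] : H) : Perm X) ([] ++ v)} = {[]} := by
        ext v
        simp only [List.nil_append, Set.mem_ofPred_eq, Set.mem_singleton_iff]
        constructor
        · rintro ⟨h, -⟩; exact List.length_eq_zero_iff.1 h
        · rintro rfl; exact ⟨rfl, h1⟩
      unfold N
      rw [this]; simp
  | succ n ih =>
    obtain ⟨h, h1, h2⟩ := ih
    have h0 : θ h = 1 := h1 0
    have e1 : (σ h : Perm X) = pair h 1 := by rw [coe_σ, h0]; rfl
    have ha : (toH [none] : Perm X) = A := by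
      change wv [none] = _; rw [wv_cons, wv_nil, mul_one]; rfl
    refine ⟨σ h * (toH [none] * σ h * (toH [none])⁻¹), ?_, ?_⟩
    · intro j
      rw [iter_mul, map_mul, iter_mul, iter_mul, map_mul, map_mul]
      have : θ (σ^[j] (σ h)) = 1 := h1 (j + 1)
      rw [this, mul_one, one_mul, ← map_mul, ← iter_mul, mul_inv_cancel, iter_one, map_one]
    · have e2 : ((σ h * (toH [none] * σ h * (toH [none])⁻¹) : H) : Perm X) = pair h h := by
        rw [Subgroup.coe_mul, Subgroup.coe_mul, Subgroup.coe_mul, Subgroup.coe_inv, e1, ha,
          A_pair, mul_assoc, mul_inv_cancel, mul_one, pair_mul, one_mul, mul_one]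
      rw [e2, N_pair, h2, pow_succ]; omega

end Pool.Agent.R653.Lys
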