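import Mathlib
import Pool.Agent.R653.Lys.Grp

/-!
The Lysenok extension `Γ` of the Grigorchuk group: the ascending HNN extension
`⟨H, t | t g t⁻¹ = σ(g)⟩`.
-/

namespace Pool.Agent.R653.Lys

open Pool.Agent.R701.Grig Equiv

/-- the isomorphism of `H` with the image of `σ` -/
noncomputable def σe : (⊤ : Subgroup H) ≃* σ.range :=
  Subgroup.topEquiv.trans (MonoidHom.ofInjective σ_injective)

lemma coe_σe (g : (⊤ : Subgroup H)) : (σe g : H) = σ (g : H) := rfl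

/-- the Lysenok extension of the Grigorchuk group -/
abbrev Γ : Type := HNNExtension H ⊤ σ.range σe

/-- embedding of the base group -/
noncomputable def ι : H →* Γ := HNNExtension.of

/-- stable letter -/
noncomputable def t : Γ := HNNExtension.t

lemma ι_injective : Function.Injective ι := HNNExtension.of_injective _

lemma t_ι (g : H) : t * ι g = ι (σ g) * t :=
  HNNExtension.t_mul_of (φ := σe) (⟨g, trivial⟩ : (⊤ : Subgroup H))

lemma t_pow_ι (n : ℕ) (g : H) : t ^ n * ι g = ι (σ^[n] g) * t ^ n := by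
  induction n generalizing g with
  | zero => simp
  | succ n ih => rw [pow_succ, mul_assoc, t_ι, ← mul_assoc, ih, Function.iterate_succ_apply, mul_assoc]

lemma ι_t_inv (g : H) : ι g * t⁻¹ = t⁻¹ * ι (σ g) := by
  have := t_ι g
  calc ι g * t⁻¹ = t⁻¹ * (t * ι g) * t⁻¹ := by group
    _ = t⁻¹ * ι (σ g) := by rw [this]; group

lemma ι_t_neg_pow (n : ℕ) (g : H) : ι g * (t ^ n)⁻¹ = (t ^ n)⁻¹ * ι (σ^[n] g) := by
  have := t_pow_ι n g
  calc ι g * (t ^ n)⁻¹ = (t ^ n)⁻¹ * (t ^ n * ι g) * (t ^ n)⁻¹ := by group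
    _ = (t ^ n)⁻¹ * ι (σ^[n] g) := by rw [this]; group

/-- the exponent of the stable letter -/
noncomputable def e : Γ →* Multiplicative ℤ :=
  HNNExtension.lift 1 (Multiplicative.ofAdd 1) (by intro a; simp)

lemma e_ι (g : H) : e (ι g) = 1 := by
  rw [e, ι, HNNExtension.lift_of]; rfl

lemma e_t : e t = Multiplicative.ofAdd 1 := by rw [e, t, HNNExtension.lift_t]

lemma e_t_zpow (n : ℤ) : e (t ^ n) = Multiplicative.ofAdd n := by
  rw [map_zpow, e_t, ← ofAdd_zsmul]; simp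

/-- the normal form `t⁻ⁱ g tᵏ` -/
lemma nf_mul {i j : ℕ} {g h : H} {k l : ℤ} : ∃ (i' : ℕ) (g' : H) (k' : ℤ),
    ((t ^ i)⁻¹ * ι g * t ^ k) * ((t ^ j)⁻¹ * ι h * t ^ l) = (t ^ i')⁻¹ * ι g' * t ^ k' := by
  rcases le_total (j : ℤ) k with hjk | hjk
  · obtain ⟨m, hm⟩ := Int.eq_ofNat_of_zero_le (sub_nonneg.2 hjk)
    refine ⟨i, g * σ^[m] h, m + l, ?_⟩
    have e1 : t ^ k * (t ^ j)⁻¹ = t ^ m := by
      rw [← zpow_natCast, ← zpow_natCast, ← hm, zpow_sub]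
    calc ((t ^ i)⁻¹ * ι g * t ^ k) * ((t ^ j)⁻¹ * ι h * t ^ l)
        = (t ^ i)⁻¹ * ι g * (t ^ k * (t ^ j)⁻¹) * ι h * t ^ l := by group
      _ = (t ^ i)⁻¹ * ι g * (t ^ m * ι h) * t ^ l := by rw [e1]; group
      _ = (t ^ i)⁻¹ * ι g * (ι (σ^[m] h) * t ^ m) * t ^ l := by rw [t_pow_ι]
      _ = _ := by rw [map_mul, zpow_add, zpow_natCast]; group
  · obtain ⟨m, hm⟩ := Int.eq_ofNat_of_zero_le (sub_nonneg.2 hjk)
    refine ⟨i + m, σ^[m] g * h, l, ?_⟩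
    have e1 : t ^ k * (t ^ j)⁻¹ = (t ^ m)⁻¹ := by
      rw [← zpow_natCast, ← zpow_natCast, ← hm, zpow_sub]; group
    calc ((t ^ i)⁻¹ * ι g * t ^ k) * ((t ^ j)⁻¹ * ι h * t ^ l)
        = (t ^ i)⁻¹ * ι g * (t ^ k * (t ^ j)⁻¹) * ι h * t ^ l := by group
      _ = (t ^ i)⁻¹ * (ι g * (t ^ m)⁻¹) * ι h * t ^ l := by rw [e1]; group
      _ = (t ^ i)⁻¹ * ((t ^ m)⁻¹ * ι (σ^[m] g)) * ι h * t ^ l := by rw [ι_t_neg_pow]
      _ = _ := by rw [map_mul, pow_add]; group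

lemma nf_inv {i : ℕ} {g : H} {k : ℤ} : ∃ (i' : ℕ) (g' : H) (k' : ℤ),
    ((t ^ i)⁻¹ * ι g * t ^ k)⁻¹ = (t ^ i')⁻¹ * ι g' * t ^ k' := by
  rcases le_total 0 k with hk | hk
  · obtain ⟨m, hm⟩ := Int.eq_ofNat_of_zero_le hk
    refine ⟨m, g⁻¹, i, ?_⟩
    rw [hm]; simp [mul_assoc]
  · obtain ⟨m, hm⟩ := Int.eq_ofNat_of_zero_le (neg_nonneg.2 hk)
    refine ⟨0, σ^[m] g⁻¹, m + i, ?_⟩
    have hk' : k = -(m : ℤ) := by omega
    rw [hk', zpow_add, zpow_natCast, zpow_natCast, ← mul_assoc]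
    calc ((t ^ i)⁻¹ * ι g * t ^ (-(m : ℤ)))⁻¹ = t ^ m * ι g⁻¹ * t ^ i := by
          rw [map_inv]; group
      _ = _ := by rw [t_pow_ι]; simp [mul_assoc]

lemma nf (γ : Γ) : ∃ (i : ℕ) (g : H) (k : ℤ), γ = (t ^ i)⁻¹ * ι g * t ^ k := by
  induction γ using HNNExtension.induction_on with
  | of g => exact ⟨0, g, 0, by simp [ι]⟩
  | t => exact ⟨0, 1, 1, by simp [t]⟩
  | mul x y hx hy =>
    obtain ⟨i, g, k, rfl⟩ := hx
    obtain ⟨j, h, l, rfl⟩ := hy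
    exact nf_mul
  | inv x hx =>
    obtain ⟨i, g, k, rfl⟩ := hx
    exact nf_inv

lemma e_nf (i : ℕ) (g : H) (k : ℤ) : e ((t ^ i)⁻¹ * ι g * t ^ k) = Multiplicative.ofAdd (k - i) := by
  rw [map_mul, map_mul, e_ι, map_inv, map_pow, e_t, e_t_zpow, mul_one]
  rw [← ofAdd_nsmul, ← ofAdd_neg, ← ofAdd_add]
  congr 1
  simp; ring

/-- elements of exponent zero are conjugate into the base -/
lemma nf_zero {γ : Γ} (h : e γ = 1) : ∃ (i : ℕ) (g : H), γ = (t ^ i)⁻¹ * ι g * t ^ i := by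
  obtain ⟨i, g, k, rfl⟩ := nf γ
  rw [e_nf] at h
  have : k - i = 0 := ofAdd_eq_one.1 h
  have hk : k = i := by omega
  exact ⟨i, g, by rw [hk, zpow_natCast]⟩

/-- elements of exponent zero have finite order -/
lemma tors {γ : Γ} (h : e γ = 1) : IsOfFinOrder γ := by
  obtain ⟨i, g, rfl⟩ := nf_zero h
  have h1 : IsOfFinOrder (ι g) := ι.isOfFinOrder (H_torsion g)
  rw [isOfFinOrder_iff_pow_eq_one] at h1 ⊢
  obtain ⟨n, hn, hg⟩ := h1
  refine ⟨n, hn, ?_⟩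
  have : (t ^ i)⁻¹ * ι g * t ^ i = (t ^ i)⁻¹ * ι g * ((t ^ i)⁻¹)⁻¹ := by rw [inv_inv]
  rw [this, conj_pow, hg]; simp

/-- nontriviality criterion -/
lemma nf_ne_one {p q : ℕ} {g : H} (hg : g ≠ 1) : (t ^ p)⁻¹ * ι g * t ^ q ≠ 1 := by
  intro h
  have h1 := congrArg e h
  rw [← zpow_natCast t q, e_nf, map_one] at h1
  have h2 : (q : ℤ) - p = 0 := ofAdd_eq_one.1 h1
  have h3 : q = p := by omega
  subst h3
  apply hg
  apply ι_injective
  rw [map_one]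
  calc ι g = t ^ q * ((t ^ q)⁻¹ * ι g * t ^ q) * (t ^ q)⁻¹ := by group
    _ = 1 := by rw [h]; group

end Pool.Agent.R653.Lys
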