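import Mathlib
import Pool.Agent.R653.Lys.HNN
import Pool.Agent.R653.Lys.Block

/-!
`Γ` has no rational cross section.
-/

namespace Pool.Agent.R653.Lys

open Pool.Agent.R701.Grig Equiv

lemma N_iter_false (g : H) (J n : ℕ) :
    N (σ^[J] g) (List.replicate J false) n = N g [] n := by
  induction J with
  | zero => rfl
  | succ J ih => rw [Function.iterate_succ_apply', coe_σ, List.replicate_succ, N_pair_false, ih]

section Main

variable {S : Type} (val : S → Γ) (i : S → ℕ) (g : S → H) (k : S → ℤ)

/-- evaluation of words -/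
noncomputable def evl (w : List S) : Γ := (w.map val).prod

/-- exponent of a word -/
def ex (w : List S) : ℤ := (w.map fun x => k x - i x).sum

lemma evl_nil : evl val [] = 1 := rfl
lemma evl_cons (x : S) (w : List S) : evl val (x :: w) = val x * evl val w := by simp [evl]
lemma evl_append (u w : List S) : evl val (u ++ w) = evl val u * evl val w := by simp [evl]
lemma ex_nil : ex i k [] = 0 := rfl
lemma ex_cons (x : S) (w : List S) : ex i k (x :: w) = (k x - i x) + ex i k w := by simp [ex]
lemma ex_append (u w : List S) : ex i k (u ++ w) = ex i k u + ex i k w := by simp [ex]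

/-- the list of factors -/
def fl : ℤ → List S → List (ℤ × H)
  | _, [] => []
  | p, x :: w => (p - i x, g x) :: fl (p + (k x - i x)) w

variable (hv : ∀ x, val x = (t ^ i x)⁻¹ * ι (g x) * t ^ k x)

include hv in
lemma e_evl (w : List S) : e (evl val w) = Multiplicative.ofAdd (ex i k w) := by
  induction w with
  | nil => simp [evl_nil, ex_nil]
  | cons x w ih => rw [evl_cons, map_mul, ih, hv, e_nf, ex_cons, ofAdd_add]

include hv in
lemma fl_spec (J : ℕ) (w : List S) : ∀ p : ℤ, (∀ q ∈ fl i g k p w, 0 ≤ (J : ℤ) + q.1) →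
    t ^ ((J : ℤ) + p) * evl val w = ι (V J (fl i g k p w)) * t ^ ((J : ℤ) + p + ex i k w) := by
  induction w with
  | nil => intro p _; simp [evl_nil, ex_nil, fl, V_nil']
  | cons x w ih =>
    intro p hp
    rw [fl] at hp
    have h1 := hp _ (List.mem_cons_self)
    simp only at h1
    have h2 := ih (p + (k x - i x)) (fun q hq => hp q (List.mem_cons_of_mem _ hq))
    obtain ⟨n, hn⟩ := Int.eq_ofNat_of_zero_le h1
    have h3 : ((J : ℤ) + (p - i x)).toNat = n := by omega
    rw [fl, V_cons, map_mul, evl_cons, hv, ex_cons]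
    simp only [h3]
    have e1 : (J : ℤ) + p = n + i x := by omega
    calc t ^ ((J : ℤ) + p) * ((t ^ i x)⁻¹ * ι (g x) * t ^ k x * evl val w)
        = (t ^ n * ι (g x)) * t ^ k x * evl val w := by
          rw [e1, zpow_add, zpow_natCast, zpow_natCast]; group
      _ = ι (σ^[n] (g x)) * (t ^ ((J : ℤ) + (p + (k x - i x))) * evl val w) := by
          rw [t_pow_ι]
          have : (J : ℤ) + (p + (k x - i x)) = n + k x := by omega
          rw [this, zpow_add, zpow_natCast]; group
      _ = _ := by rw [h2, ← mul_assoc]; congr 2; ring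

variable {Q : Type} (M : DFA S Q)

/-- the run of the automaton with heights -/
def st : Q → ℤ → List S → List (Q × ℤ × S)
  | _, _, [] => []
  | s, p, x :: w => (s, p, x) :: st (M.step s x) (p + (k x - i x)) w

lemma fl_eq (w : List S) : ∀ (s : Q) (p : ℤ),
    fl i g k p w = (st i k M s p w).map fun r : Q × ℤ × S => (r.2.1 - (i r.2.2 : ℤ), g r.2.2) := by
  induction w with
  | nil => intro s p; rfl
  | cons x w ih => intro s p; rw [fl, st, List.map_cons, ← ih]

lemma mem_st (w : List S) : ∀ (s : Q) (p : ℤ) (r : Q × ℤ × S), r ∈ st i k M s p w →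
    ∃ v z, w = v ++ r.2.2 :: z ∧ r.1 = M.evalFrom s v ∧ r.2.1 = p + ex i k v := by
  induction w with
  | nil => intro s p r hr; simp [st] at hr
  | cons x w ih =>
    intro s p r hr
    rw [st] at hr
    rcases List.mem_cons.1 hr with rfl | hr
    · exact ⟨[], w, rfl, by simp, by simp [ex_nil]⟩
    · obtain ⟨v, z, h1, h2, h3⟩ := ih _ _ _ hr
      refine ⟨x :: v, z, by rw [h1]; rfl, by rw [DFA.evalFrom_cons, h2], ?_⟩
      rw [ex_cons, h3]; ring

lemma evl_rep (v : List S) (n : ℕ) : evl val (List.replicate n v).flatten = evl val v ^ n := by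
  induction n with
  | zero => simp [evl_nil]
  | succ n ih => rw [List.replicate_succ, List.flatten_cons, evl_append, ih, pow_succ']

lemma eval_rep {v : List S} {s : Q} (h : M.evalFrom s v = s) (n : ℕ) :
    M.evalFrom s (List.replicate n v).flatten = s := by
  induction n with
  | zero => simp
  | succ n ih => rw [List.replicate_succ, List.flatten_cons, DFA.evalFrom_of_append, h, ih]

include hv in
/-- loops have nonzero exponent -/
lemma loop (hinj : Set.InjOn (evl val) {w | w ∈ M.accepts}) (u v z : List S) (hvne : v ≠ [])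
    (hw : u ++ v ++ z ∈ M.accepts) (hl : M.evalFrom (M.eval u) v = M.eval u) : ex i k v ≠ 0 := by
  intro h0
  have h1 : e (evl val v) = 1 := by rw [e_evl val i g k hv, h0]; rfl
  obtain ⟨n, hn, hn1⟩ := (isOfFinOrder_iff_pow_eq_one.1 (tors h1))
  have hz : M.evalFrom (M.eval u) z ∈ M.accept := by
    have : M.eval (u ++ v ++ z) ∈ M.accept := hw
    rw [DFA.eval, DFA.evalFrom_of_append, DFA.evalFrom_of_append] at this
    change M.evalFrom (M.evalFrom (M.eval u) v) z ∈ _ at this
    rwa [hl] at this
  have a1 : u ++ z ∈ M.accepts := by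
    change M.evalFrom M.start (u ++ z) ∈ M.accept
    rw [DFA.evalFrom_of_append]; exact hz
  have a2 : u ++ (List.replicate n v).flatten ++ z ∈ M.accepts := by
    change M.evalFrom M.start (u ++ (List.replicate n v).flatten ++ z) ∈ M.accept
    rw [DFA.evalFrom_of_append, DFA.evalFrom_of_append]
    change M.evalFrom (M.evalFrom (M.eval u) _) z ∈ _
    rw [eval_rep M hl]; exact hz
  have heq := hinj a1 a2 (by
    rw [evl_append, evl_append, evl_append, evl_rep, hn1, mul_one])
  have hlen := congrArg List.length heq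
  have hv1 : 0 < v.length := List.length_pos_iff.2 hvne
  simp only [List.length_append, List.length_flatten, List.map_replicate,
    List.sum_replicate, smul_eq_mul] at hlen
  have : 0 < n * v.length := Nat.mul_pos hn hv1
  omega

include hv in
lemma st_pairwise (hinj : Set.InjOn (evl val) {w | w ∈ M.accepts}) (w : List S) :
    ∀ u : List S, u ++ w ∈ M.accepts →
    (st i k M (M.eval u) (ex i k u) w).Pairwise (fun a b => (a.1, a.2.1) ≠ (b.1, b.2.1)) := by
  induction w with
  | nil => intro u _; exact List.Pairwise.nil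
  | cons x w ih =>
    intro u hu
    rw [st, List.pairwise_cons]
    constructor
    · intro r hr heq
      obtain ⟨v, z, h1, h2, h3⟩ := mem_st i k M w _ _ _ hr
      have e1 : M.evalFrom (M.eval u) (x :: v) = M.eval u := by
        rw [DFA.evalFrom_cons, ← h2]
        exact (congrArg Prod.fst heq).symm
      have e2 : ex i k (x :: v) = 0 := by
        have := congrArg Prod.snd heq
        simp only at this
        rw [ex_cons]
        linarith
      refine loop val i g k hv M hinj u (x :: v) (r.2.2 :: z) (by simp) ?_ e1 e2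
      rw [h1] at hu
      simpa using hu
    · have := ih (u ++ [x]) (by simpa using hu)
      rw [DFA.eval_append_singleton, ex_append] at this
      simpa [ex_cons, ex_nil] using this

include hv in
lemma count_le [Fintype Q] {C : ℕ} (hC : ∀ x, i x ≤ C)
    (hinj : Set.InjOn (evl val) {w | w ∈ M.accepts}) (w : List S) (hw : w ∈ M.accepts) (y : ℤ) :
    ((fl i g k 0 w).map Prod.fst).count y ≤ Fintype.card Q * (C + 1) := by
  classical
  have h1 := st_pairwise val i g k hv M hinj w [] (by simpa using hw)
  rw [fl_eq i g k M w M.start 0, List.map_map]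
  have hst : st i k M (M.eval []) (ex i k []) w = st i k M M.start 0 w := rfl
  rw [hst] at h1
  set l := st i k M M.start 0 w
  rw [List.count, List.countP_map, List.countP_eq_length_filter]
  set P : Q × ℤ × S → Bool := (fun x => x == y) ∘ (Prod.fst ∘ fun r : Q × ℤ × S => (r.2.1 - (i r.2.2 : ℤ), g r.2.2))
    with hP
  have hPy : ∀ r, P r = true → r.2.1 = y + i r.2.2 := by
    intro r hr
    have : r.2.1 - i r.2.2 = y := by simpa [hP] using hr
    omega
  have h2 := h1.filter P
  let f : Q × ℤ × S → Q × Fin (C + 1) := fun r => (r.1, ⟨i r.2.2, Nat.lt_succ_of_le (hC _)⟩)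
  have h3 : ((l.filter P).map f).Nodup := by
    rw [List.Nodup, List.pairwise_map]
    refine h2.imp_of_mem ?_
    intro a b ha hb hab hf
    apply hab
    have ha' := hPy a (List.mem_filter.1 ha).2
    have hb' := hPy b (List.mem_filter.1 hb).2
    have f1 : a.1 = b.1 := congrArg (fun q : Q × Fin (C + 1) => q.1) hf
    have f2 : i a.2.2 = i b.2.2 := congrArg (fun q : Q × Fin (C + 1) => (q.2 : ℕ)) hf
    rw [ha', hb', f1, f2]
  have h4 := h3.length_le_card
  rw [List.length_map, Fintype.card_prod, Fintype.card_fin] at h4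
  exact h4

lemma fl_chain {n : ℕ} (hn : ∀ x y, |k x - i y| ≤ (n : ℤ)) (w : List S) : ∀ p : ℤ,
    (fl i g k p w).IsChain fun p q : ℤ × H => |p.1 - q.1| ≤ (n : ℤ) := by
  induction w with
  | nil => intro p; exact List.IsChain.nil
  | cons x w ih =>
    intro p
    rw [fl]
    have h1 := ih (p + (k x - i x))
    cases w with
    | nil => exact List.IsChain.singleton _
    | cons y w =>
      rw [fl] at h1 ⊢
      rw [List.isChain_cons_cons]
      refine ⟨?_, h1⟩
      have := hn x y
      rw [← abs_neg] at this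
      convert this using 2
      simp only
      ring

lemma fl_mem (w : List S) : ∀ p : ℤ, ∀ q ∈ fl i g k p w, ∃ x, q.2 = g x := by
  induction w with
  | nil => intro p q hq; simp [fl] at hq
  | cons x w ih =>
    intro p q hq
    rw [fl] at hq
    rcases List.mem_cons.1 hq with rfl | hq
    · exact ⟨x, rfl⟩
    · exact ih _ _ hq

lemma exists_J (l : List (ℤ × H)) : ∃ J : ℕ, ∀ p ∈ l, 0 ≤ (J : ℤ) + p.1 := by
  induction l with
  | nil => exact ⟨0, by simp⟩
  | cons p l ih =>
    obtain ⟨J, hJ⟩ := ih
    refine ⟨J + p.1.natAbs, ?_⟩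
    intro q hq
    rcases List.mem_cons.1 hq with rfl | hq
    · push_cast; have := neg_abs_le q.1; omega
    · have := hJ q hq; push_cast; have := abs_nonneg p.1; omega

end Main

/-- exponentials beat quadratics -/
lemma exp_beats (K n0 : ℕ) : ∃ n, n0 ≤ n ∧ K * (n + 1) ^ 2 < 2 ^ n := by
  refine ⟨3 * (9 * K + n0), by omega, ?_⟩
  set k := 9 * K + n0 with hk
  have h1 : k + 1 ≤ 2 ^ k := Nat.lt_two_pow_self
  have h2 : 2 ^ (3 * k) = (2 ^ k) ^ 3 := by rw [← pow_mul, mul_comm]
  rw [h2]
  have h3 : (k + 1) ^ 3 ≤ (2 ^ k) ^ 3 := Nat.pow_le_pow_left h1 3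
  refine lt_of_lt_of_le ?_ h3
  have h4 : (3 * k + 1) ^ 2 ≤ 9 * (k + 1) ^ 2 := by nlinarith
  calc K * (3 * k + 1) ^ 2 ≤ K * (9 * (k + 1) ^ 2) := Nat.mul_le_mul_left _ h4
    _ = (9 * K) * (k + 1) ^ 2 := by ring
    _ < (k + 1) * (k + 1) ^ 2 := by
        apply Nat.mul_lt_mul_of_pos_right (by omega) (by positivity)
    _ = (k + 1) ^ 3 := by ring

/-- There is no regular language on which the evaluation is injective and whose image contains
the base group. -/
theorem no_cross {S : Type} [Finite S] (val : S → Γ) (L : Language S) (hL : L.IsRegular)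
    (hinj : Set.InjOn (evl val) {w | w ∈ L}) (hsurj : ∀ h : H, ∃ w ∈ L, evl val w = ι h) : False := by
  classical
  cases nonempty_fintype S
  obtain ⟨Q, _, M, rfl⟩ := hL
  choose i g k hv using fun x => nf (val x)
  choose c hc using fun x => exists_cx (g x)
  let C := ∑ x, i x
  let m := ∑ x, c x
  let n0 := ∑ x, ((k x).natAbs + i x)
  have hC : ∀ x, i x ≤ C := fun x => Finset.single_le_sum (f := i) (by simp) (Finset.mem_univ x)
  have hm : ∀ x, c x ≤ m := fun x => Finset.single_le_sum (f := c) (by simp) (Finset.mem_univ x)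
  have hn0 : ∀ x, (k x).natAbs + i x ≤ n0 := fun x =>
    Finset.single_le_sum (f := fun x => (k x).natAbs + i x) (by simp) (Finset.mem_univ x)
  set R := Fintype.card Q * (C + 1) with hR
  set K := (2 * R + 1) * (8 + 3 * (R * m + m) + 20) with hK
  obtain ⟨n, hn, hlt⟩ := exp_beats K (2 * n0)
  obtain ⟨h, -, hN⟩ := exists_deep n
  obtain ⟨w, hw, hwh⟩ := hsurj h
  have hcount := count_le val i g k hv M hC hinj w hw
  obtain ⟨J, hJ⟩ := exists_J (fl i g k 0 w)
  have hspec := fl_spec val i g k hv J w 0 hJ
  have hex : ex i k w = 0 := by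
    have := e_evl val i g k hv w
    rw [hwh, e_ι] at this
    exact ofAdd_eq_one.1 this.symm
  rw [hwh, hex, add_zero, add_zero, zpow_natCast, t_pow_ι] at hspec
  have hσ : σ^[J] h = V J (fl i g k 0 w) := ι_injective (mul_right_cancel hspec)
  have hb := block_bound J n R m _ (fl i g k 0 w) le_rfl
    (fl_chain i g k (n := n) (by
      intro x y
      have h1 := hn0 x
      have h2 := hn0 y
      rw [abs_le]
      omega) w 0)
    (by
      intro p hp
      obtain ⟨x, hx⟩ := fl_mem i g k w 0 p hp
      rw [hx]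
      exact (hc x).mono (hm x))
    hJ (by intro x; rw [hR]; exact hcount x) (List.replicate J false) (List.length_replicate)
  rw [← hσ, N_iter_false, hN] at hb
  have hmid := countP_mid n R (fl i g k 0 w) (by intro x; rw [hR]; exact hcount x)
  have h1 : 2 * (fl i g k 0 w).countP (Mid n) + 1 ≤ (2 * R + 1) * (n + 1) := by
    nlinarith
  have h2 : bd n R m ≤ (8 + 3 * (R * m + m) + 20) * (n + 1) := by
    unfold bd
    nlinarith [Nat.zero_le (R * m), Nat.zero_le m, Nat.zero_le (n * (R * m)), Nat.zero_le (n * m)]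
  have h3 : (2 * (fl i g k 0 w).countP (Mid n) + 1) * bd n R m ≤ K * (n + 1) ^ 2 := by
    calc _ ≤ ((2 * R + 1) * (n + 1)) * ((8 + 3 * (R * m + m) + 20) * (n + 1)) :=
          Nat.mul_le_mul h1 h2
      _ = _ := by rw [hK]; ring
  exact absurd (hb.trans h3) (not_le.2 hlt)

end Pool.Agent.R653.Lys
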