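import Mathlib
import Pool.Agent.R653.Lys.NoCross
import Pool.Agent.H643R2.BX.Syn

/-!
A regular language representing exactly the nontrivial elements of `Γ`.
-/

namespace Pool.Agent.R653.Lys

open Pool.Agent.R701.Grig Equiv
open Pool.Agent.H643R2.BX

/-- the alphabet: `inl l` are the letters `a, b, c, d`, `inr true` is `t`, `inr false` is `t⁻¹` -/
abbrev Al : Type := Option L ⊕ Bool

instance : Fintype L := ⟨{.b, .c, .d}, by intro x; cases x <;> simp⟩

/-- values of letters -/
noncomputable def va : Al → Γ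
  | .inl l => ι (toH [l])
  | .inr true => t
  | .inr false => t⁻¹

/-- group letters -/
def gl (u : Wd) : List Al := u.map Sum.inl

/-- the letter `a` -/
abbrev la : Al := .inl none
/-- the letter `t` -/
abbrev lt : Al := .inr true
/-- the letter `t⁻¹` -/
abbrev lT : Al := .inr false

lemma ev_gl (u : Wd) : evl va (gl u) = ι (toH u) := by
  induction u with
  | nil => exact (map_one ι).symm
  | cons l u ih =>
    change evl va (Sum.inl l :: gl u) = _
    rw [evl_cons, ih]
    change ι (toH [l]) * ι (toH u) = _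
    rw [← map_mul, ← toH_append]; rfl

/-- `{ε, a}` -/
def Pa : Language Al := 1 + {[la]}
/-- `(t⁻¹)^*` -/
def E1 : Language Al := KStar.kstar {[lT]}
/-- `({ε,a} t)^*` -/
def E2 : Language Al := KStar.kstar (Pa * {[lt]})
/-- words with an odd number of `a`s -/
def Lodd : Language Al := {w | ∃ u : Wd, w = gl u ∧ par u = true}
/-- words in the kernel of `θ` -/
def Kθ : Language Al := {w | ∃ u : Wd, w = gl u ∧ θ (toH u) = 1}
/-- `(t⁻¹ a t ker(θ) t⁻¹ a {ε,a})^*` -/
def E3 : Language Al := KStar.kstar ({[lT]} * {[la]} * {[lt]} * Kθ * {[lT]} * {[la]} * Pa)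
/-- `t^*` -/
def E4 : Language Al := KStar.kstar {[lt]}

/-- the main part of the language -/
def Lm : Language Al := E2 * Lodd * E3

/-- the language of the nontrivial elements -/
def LL : Language Al := (E1 * Lm * E4) + ({[lt]} * E4) + ({[lT]} * E1)

lemma rfin_gl {F : Type} [Finite F] (f : Wd → F) (P : F → Prop)
    (hf : ∀ u u', f u = f u' → ∀ v, f (u ++ v) = f (u' ++ v)) :
    RFin ({w | ∃ u : Wd, w = gl u ∧ P (f u)} : Language Al) := by
  classical
  refine ⟨Option F, inferInstance,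
    fun w => if h : ∃ u, w = gl u then some (f h.choose) else none, ?_⟩
  have inj : ∀ u v : Wd, gl u = gl v → u = v := fun u v h =>
    List.map_injective_iff.2 Sum.inl_injective h
  have hg : ∀ (w : List Al) (u : Wd), w = gl u →
      (if h : ∃ u, w = gl u then some (f h.choose) else none) = some (f u) := by
    intro w u hu
    have h : ∃ u, w = gl u := ⟨u, hu⟩
    rw [dif_pos h]
    have := h.choose_spec
    rw [inj _ _ (this.symm.trans hu)]
  have key : ∀ w w' : List Al,
      (if h : ∃ u, w = gl u then some (f h.choose) else none) =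
        (if h : ∃ u, w' = gl u then some (f h.choose) else none) →
      ∀ s, w ++ s ∈ ({w | ∃ u : Wd, w = gl u ∧ P (f u)} : Language Al) →
        w' ++ s ∈ ({w | ∃ u : Wd, w = gl u ∧ P (f u)} : Language Al) := by
    intro w w' h s hs
    obtain ⟨u, hu, hP⟩ := hs
    obtain ⟨u1, u2, h1, h2, h3⟩ := List.append_eq_map_iff.1 hu
    rw [hg w u1 h2.symm] at h
    by_cases h' : ∃ u, w' = gl u
    · obtain ⟨u1', hu1'⟩ := h'
      rw [hg w' u1' hu1'] at h
      have h4 : f u1 = f u1' := Option.some.inj h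
      refine ⟨u1' ++ u2, ?_, ?_⟩
      · rw [hu1', ← h3]; simp [gl]
      · rw [← hf u1 u1' h4, ← h1]; exact hP
    · rw [dif_neg h'] at h
      cases h
  intro w w' h s
  exact ⟨key w w' h s, key w' w h.symm s⟩

lemma finite_range_θ : (Set.range θ).Finite := by
  have h1 : (Set.range fun b : Bool × Bool × Bool => D b.1 b.2.1 b.2.2).Finite :=
    Set.finite_range _
  refine (h1.preimage (Subtype.val_injective.injOn : Set.InjOn (Subtype.val : H → Perm X) _)).subset ?_
  rintro _ ⟨g, rfl⟩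
  obtain ⟨x, y, r, h⟩ := θ_eq_D g
  exact ⟨(x, y, r), h.symm⟩

lemma rfin_odd : RFin Lodd :=
  rfin_gl par (fun b => b = true) (by intro u u' h v; rw [par_append, par_append, h])

lemma rfin_K : RFin Kθ := by
  have : Finite (Set.range θ) := finite_range_θ.to_subtype
  have := rfin_gl (F := Set.range θ) (fun u => ⟨θ (toH u), _, rfl⟩) (fun x => x.1 = 1) (by
    intro u u' h v
    have h1 : θ (toH u) = θ (toH u') := congrArg Subtype.val h
    apply Subtype.ext
    change θ (toH (u ++ v)) = θ (toH (u' ++ v))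
    rw [toH_append, toH_append, map_mul, map_mul, h1])
  exact this

lemma rfin_Pa : RFin Pa := RFin.one.sup (RFin.char _)

lemma rfin_E1 : RFin E1 := (RFin.char _).star
lemma rfin_E4 : RFin E4 := (RFin.char _).star
lemma rfin_E2 : RFin E2 := (rfin_Pa.mul (RFin.char _)).star
lemma rfin_E3 : RFin E3 :=
  ((((((((RFin.char _).mul (RFin.char _)).mul (RFin.char _)).mul rfin_K).mul (RFin.char _)).mul
    (RFin.char _)).mul rfin_Pa)).star

lemma rfin_LL : RFin LL :=
  (((rfin_E1.mul ((rfin_E2.mul rfin_odd).mul rfin_E3)).mul rfin_E4).sup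
    ((RFin.char _).mul rfin_E4)).sup ((RFin.char _).mul rfin_E1)

/-! ### Soundness -/

/-- `1` or `a` -/
def IsA (α : H) : Prop := α = 1 ∨ α = toH [none]

/-- the elements `a σ(u) a β` -/
def IsK (k : H) : Prop := ∃ u β : H, θ u = 1 ∧ IsA β ∧ k = toH [none] * σ u * toH [none] * β

/-- left products -/
noncomputable def LP (As : List H) : Γ := (As.map fun α => ι α * t).prod
/-- right products -/
noncomputable def RP (Ks : List H) : Γ := (Ks.map fun k => t⁻¹ * ι k).prod

lemma coe_a : (toH [none] : Perm X) = A := by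
  change wv [none] = _; rw [wv_cons, wv_nil, mul_one]; rfl

lemma pair_ne {Z x α β : Perm X} (hZ : Z ≠ 1) (hα : α = 1 ∨ α = A) (hβ : β = 1 ∨ β = A) :
    α * pair Z x * β ≠ 1 := by
  have hex : ∃ u, Z u ≠ u := by
    by_contra h
    push Not at h
    exact hZ (Equiv.ext h)
  obtain ⟨u, hu⟩ := hex
  intro h
  rcases hα with rfl | rfl <;> rcases hβ with rfl | rfl
  · have := congrArg (fun f : Perm X => f (false :: u)) h
    simp at this
    exact hu this
  · have := congrArg (fun f : Perm X => f [false]) h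
    simp [Perm.mul_apply] at this
  · have := congrArg (fun f : Perm X => f [false]) h
    simp [Perm.mul_apply] at this
  · have := congrArg (fun f : Perm X => f (true :: u)) h
    simp [Perm.mul_apply] at this
    exact hu this

lemma isA_coe {α : H} (h : IsA α) : (α : Perm X) = 1 ∨ (α : Perm X) = A := by
  rcases h with rfl | rfl
  · left; rfl
  · right; exact coe_a

lemma nt1 {α Z : H} (hα : IsA α) (hZ : Z ≠ 1) : α * σ Z ≠ 1 := by
  intro h
  have h1 := congrArg (fun g : H => (g : Perm X)) h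
  simp only [Subgroup.coe_mul, coe_σ, Subgroup.coe_one] at h1
  have hZ' : (Z : Perm X) ≠ 1 := fun h => hZ (Subtype.ext h)
  exact pair_ne (β := 1) hZ' (isA_coe hα) (Or.inl rfl) (by rw [mul_one]; exact h1)

lemma nt2 {α Z k : H} (hα : IsA α) (hZ : Z ≠ 1) (hk : IsK k) : α * σ Z * k ≠ 1 := by
  obtain ⟨u, β, hu, hβ, rfl⟩ := hk
  intro h
  have h1 := congrArg (fun g : H => (g : Perm X)) h
  simp only [Subgroup.coe_mul, coe_σ, Subgroup.coe_one, hu, coe_a] at h1
  have hZ' : (Z : Perm X) ≠ 1 := fun h => hZ (Subtype.ext h)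
  have e1 : A * pair (u : Perm X) 1 * A = pair 1 u := by rw [A_pair, mul_assoc, AA, mul_one]
  have e2 : (α : Perm X) * pair (Z : Perm X) (θ Z) * (A * pair (u : Perm X) 1 * A * (β : Perm X)) =
      (α : Perm X) * pair (Z : Perm X) ((θ Z : Perm X) * u) * (β : Perm X) := by
    rw [e1, ← mul_assoc, mul_assoc (α : Perm X), pair_mul, mul_one]
  rw [e2] at h1
  exact pair_ne hZ' (isA_coe hα) (isA_coe hβ) h1

lemma LP_nil : LP [] = 1 := rfl
lemma RP_nil : RP [] = 1 := rfl
lemma LP_append (As Bs : List H) : LP (As ++ Bs) = LP As * LP Bs := by simp [LP]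
lemma LP_single (α : H) : LP [α] = ι α * t := by simp [LP]
lemma RP_cons (k : H) (Ks : List H) : RP (k :: Ks) = t⁻¹ * ι k * RP Ks := by simp [RP]

lemma sound (As : List H) : ∀ (Ks : List H) (Z : H), Z ≠ 1 → (∀ α ∈ As, IsA α) →
    (∀ k ∈ Ks, IsK k) →
    ∃ (p q : ℕ) (Z' : H), Z' ≠ 1 ∧ LP As * ι Z * RP Ks = (t ^ p)⁻¹ * ι Z' * t ^ q := by
  induction As using List.reverseRecOn with
  | nil =>
    intro Ks
    induction Ks with
    | nil =>
      intro Z hZ _ _
      exact ⟨0, 0, Z, hZ, by simp [LP_nil, RP_nil]⟩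
    | cons k Ks ih =>
      intro Z hZ hA hK
      have h1 : σ Z * k ≠ 1 := by
        have := nt2 (α := 1) (Or.inl rfl) hZ (hK k (by simp))
        rwa [one_mul] at this
      obtain ⟨p, q, Z', hZ', h2⟩ := ih (σ Z * k) h1 hA (fun k hk => hK k (by simp [hk]))
      refine ⟨p + 1, q, Z', hZ', ?_⟩
      rw [RP_cons, LP_nil, one_mul]
      rw [LP_nil, one_mul] at h2
      calc ι Z * (t⁻¹ * ι k * RP Ks) = (ι Z * t⁻¹) * ι k * RP Ks := by group
        _ = t⁻¹ * (ι (σ Z * k) * RP Ks) := by rw [ι_t_inv, map_mul]; group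
        _ = _ := by rw [h2, pow_succ]; group
  | append_singleton As α ih =>
    intro Ks Z hZ hA hK
    have hα := hA α (by simp)
    have hA' : ∀ α ∈ As, IsA α := fun α hα => hA α (by simp [hα])
    rw [LP_append, LP_single]
    cases Ks with
    | nil =>
      obtain ⟨p, q, Z', hZ', h2⟩ := ih [] (α * σ Z) (nt1 hα hZ) hA' (by simp)
      refine ⟨p, q + 1, Z', hZ', ?_⟩
      rw [RP_nil, mul_one] at h2 ⊢
      calc LP As * (ι α * t) * ι Z = LP As * ι α * (t * ι Z) := by group
        _ = LP As * ι (α * σ Z) * t := by rw [t_ι, map_mul]; group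
        _ = _ := by rw [h2, pow_succ]; group
    | cons k Ks =>
      obtain ⟨p, q, Z', hZ', h2⟩ := ih Ks (α * σ Z * k) (nt2 hα hZ (hK k (by simp))) hA'
        (fun k hk => hK k (by simp [hk]))
      refine ⟨p, q, Z', hZ', ?_⟩
      rw [RP_cons, ← h2]
      calc LP As * (ι α * t) * ι Z * (t⁻¹ * ι k * RP Ks)
          = LP As * ι α * (t * ι Z) * t⁻¹ * ι k * RP Ks := by group
        _ = _ := by rw [t_ι, map_mul, map_mul]; group

lemma mem_star_ind {K : Language Al} {P : List Al → Prop} (h0 : P [])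
    (hs : ∀ u v, u ∈ K → P v → P (u ++ v)) {w : List Al} (hw : w ∈ KStar.kstar K) : P w := by
  rw [Language.mem_kstar] at hw
  obtain ⟨l, rfl, hl⟩ := hw
  induction l with
  | nil => exact h0
  | cons u l ih =>
    rw [List.flatten_cons]
    exact hs u _ (hl u (by simp)) (ih fun y hy => hl y (by simp [hy]))

lemma ev_single (x : Al) : evl va [x] = va x := by simp [evl]

lemma E1_spec {w : List Al} (hw : w ∈ E1) : ∃ i : ℕ, evl va w = (t ^ i)⁻¹ := by
  refine mem_star_ind (P := fun w => ∃ i : ℕ, evl va w = (t ^ i)⁻¹) ⟨0, by simp [evl]⟩ ?_ hw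
  rintro u v hu ⟨i, hi⟩
  have hu' : u = [lT] := hu
  refine ⟨i + 1, ?_⟩
  rw [evl_append, hi, hu', ev_single, pow_succ]
  change t⁻¹ * (t ^ i)⁻¹ = _
  rw [mul_inv_rev]

lemma E4_spec {w : List Al} (hw : w ∈ E4) : ∃ i : ℕ, evl va w = t ^ i := by
  refine mem_star_ind (P := fun w => ∃ i : ℕ, evl va w = t ^ i) ⟨0, by simp [evl]⟩ ?_ hw
  rintro u v hu ⟨i, hi⟩
  have hu' : u = [lt] := hu
  refine ⟨i + 1, ?_⟩
  rw [evl_append, hi, hu', ev_single, pow_succ']
  rfl

lemma Pa_spec {w : List Al} (hw : w ∈ Pa) : ∃ β : H, IsA β ∧ evl va w = ι β := by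
  rcases hw with hw | hw
  · have : w = [] := hw
    subst this
    exact ⟨1, Or.inl rfl, (map_one ι).symm⟩
  · have : w = [la] := hw
    subst this
    exact ⟨toH [none], Or.inr rfl, by rw [ev_single]; rfl⟩

lemma E2_spec {w : List Al} (hw : w ∈ E2) : ∃ As : List H, (∀ α ∈ As, IsA α) ∧
    evl va w = LP As := by
  refine mem_star_ind (P := fun w => ∃ As : List H, (∀ α ∈ As, IsA α) ∧ evl va w = LP As)
    ⟨[], by simp, rfl⟩ ?_ hw
  rintro u v hu ⟨As, h1, h2⟩
  obtain ⟨u1, hu1, u2, hu2, rfl⟩ := Language.mem_mul.1 hu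
  have hu2' : u2 = [lt] := hu2
  obtain ⟨β, hβ, hβ'⟩ := Pa_spec hu1
  refine ⟨β :: As, ?_, ?_⟩
  · intro α hα
    rcases List.mem_cons.1 hα with rfl | hα
    · exact hβ
    · exact h1 α hα
  · rw [evl_append, evl_append, h2, hβ', hu2', ev_single]
    simp only [LP, List.map_cons, List.prod_cons]
    rfl

lemma E3_spec {w : List Al} (hw : w ∈ E3) : ∃ Ks : List H, (∀ k ∈ Ks, IsK k) ∧
    evl va w = RP Ks := by
  refine mem_star_ind (P := fun w => ∃ Ks : List H, (∀ k ∈ Ks, IsK k) ∧ evl va w = RP Ks)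
    ⟨[], by simp, rfl⟩ ?_ hw
  rintro u v hu ⟨Ks, h1, h2⟩
  obtain ⟨x6, hx6, x7, hx7, rfl⟩ := Language.mem_mul.1 hu
  obtain ⟨x5, hx5, y6, hy6, rfl⟩ := Language.mem_mul.1 hx6
  obtain ⟨x4, hx4, y5, hy5, rfl⟩ := Language.mem_mul.1 hx5
  obtain ⟨x3, hx3, y4, hy4, rfl⟩ := Language.mem_mul.1 hx4
  obtain ⟨x2, hx2, y3, hy3, rfl⟩ := Language.mem_mul.1 hx3
  obtain ⟨x1, hx1, y2, hy2, rfl⟩ := Language.mem_mul.1 hx2
  have e1 : x1 = [lT] := hx1
  have e2 : y2 = [la] := hy2
  have e3 : y3 = [lt] := hy3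
  obtain ⟨u', hu', hu''⟩ := hy4
  have e5 : y5 = [lT] := hy5
  have e6 : y6 = [la] := hy6
  obtain ⟨β, hβ, hβ'⟩ := Pa_spec hx7
  refine ⟨(toH [none] * σ (toH u') * toH [none] * β) :: Ks, ?_, ?_⟩
  · intro k hk
    rcases List.mem_cons.1 hk with rfl | hk
    · exact ⟨toH u', β, hu'', hβ, rfl⟩
    · exact h1 k hk
  · rw [RP_cons, ← h2]
    simp only [evl_append, e1, e2, e3, hu', e5, e6, ev_single, ev_gl, hβ']
    change t⁻¹ * ι (toH [none]) * t * ι (toH u') * t⁻¹ * ι (toH [none]) * ι β * _ = _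
    have : t * ι (toH u') * t⁻¹ = ι (σ (toH u')) := by rw [t_ι]; group
    simp only [map_mul, ← this]
    group

lemma odd_ne {w : List Al} (hw : w ∈ Lodd) : ∃ Z : H, Z ≠ 1 ∧ evl va w = ι Z := by
  obtain ⟨u, rfl, hu⟩ := hw
  refine ⟨toH u, ?_, ev_gl u⟩
  intro h
  have := congrArg (fun g : H => (g : Perm X) [false]) h
  change wv u [false] = [false] at this
  rw [wv_apply, hu, wv_apply_nil] at this
  simp at this

lemma LL_sound {w : List Al} (hw : w ∈ LL) : evl va w ≠ 1 := by
  rcases hw with (hw | hw) | hw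
  · obtain ⟨x1, hx1, x4, hx4, rfl⟩ := Language.mem_mul.1 hw
    obtain ⟨x0, hx0, x2, hx2, rfl⟩ := Language.mem_mul.1 hx1
    obtain ⟨y1, hy1, y3, hy3, rfl⟩ := Language.mem_mul.1 hx2
    obtain ⟨y0, hy0, y2, hy2, rfl⟩ := Language.mem_mul.1 hy1
    obtain ⟨i, hi⟩ := E1_spec hx0
    obtain ⟨j, hj⟩ := E4_spec hx4
    obtain ⟨As, hA, hA'⟩ := E2_spec hy0
    obtain ⟨Z, hZ, hZ'⟩ := odd_ne hy2
    obtain ⟨Ks, hK, hK'⟩ := E3_spec hy3
    obtain ⟨p, q, Z', hne, h2⟩ := sound As Ks Z hZ hA hK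
    rw [evl_append, evl_append, evl_append, evl_append, hi, hj, hA', hZ', hK', h2]
    have : (t ^ i)⁻¹ * ((t ^ p)⁻¹ * ι Z' * t ^ q) * t ^ j =
        (t ^ (p + i))⁻¹ * ι Z' * t ^ (q + j) := by rw [pow_add, pow_add]; group
    rw [this]
    exact nf_ne_one hne
  · obtain ⟨x1, hx1, x4, hx4, rfl⟩ := Language.mem_mul.1 hw
    have e1 : x1 = [lt] := hx1
    obtain ⟨j, hj⟩ := E4_spec hx4
    rw [evl_append, hj, e1, ev_single]
    intro h
    have h1 := congrArg e h
    change e (t * t ^ j) = _ at h1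
    rw [← pow_succ', ← zpow_natCast, e_t_zpow, map_one] at h1
    have := ofAdd_eq_one.1 h1
    omega
  · obtain ⟨x1, hx1, x4, hx4, rfl⟩ := Language.mem_mul.1 hw
    have e1 : x1 = [lT] := hx1
    obtain ⟨j, hj⟩ := E1_spec hx4
    rw [evl_append, hj, e1, ev_single]
    intro h
    have h1 := congrArg e h
    change e (t⁻¹ * (t ^ j)⁻¹) = _ at h1
    rw [← mul_inv_rev, ← pow_succ, ← zpow_natCast, ← zpow_neg, e_t_zpow, map_one] at h1
    have := ofAdd_eq_one.1 h1
    omega

/-! ### Completeness -/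

lemma E1_pow (i : ℕ) : ∃ w ∈ E1, evl va w = (t ^ i)⁻¹ := by
  induction i with
  | zero => exact ⟨[], Language.nil_mem_kstar _, by simp [evl]⟩
  | succ i ih =>
    obtain ⟨w, hw, hw'⟩ := ih
    refine ⟨[lT] ++ w, star_append (star_base rfl) hw, ?_⟩
    rw [evl_append, hw', ev_single, pow_succ]
    change t⁻¹ * (t ^ i)⁻¹ = _
    rw [mul_inv_rev]

lemma E4_pow (i : ℕ) : ∃ w ∈ E4, evl va w = t ^ i := by
  induction i with
  | zero => exact ⟨[], Language.nil_mem_kstar _, by simp [evl]⟩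
  | succ i ih =>
    obtain ⟨w, hw, hw'⟩ := ih
    refine ⟨[lt] ++ w, star_append (star_base rfl) hw, ?_⟩
    rw [evl_append, hw', ev_single, pow_succ']
    rfl

lemma Lm_step {w0 : List Al} {g0 k : H} (h0 : w0 ∈ Lm) (h0' : evl va w0 = ι g0) (hk : θ k = 1)
    {pα pβ : List Al} {α β : H} (hα : pα ∈ Pa) (hα' : evl va pα = ι α) (hβ : pβ ∈ Pa)
    (hβ' : evl va pβ = ι β) :
    ∃ w ∈ Lm, evl va w = ι (α * σ g0 * (toH [none] * σ k * toH [none]) * β) := by
  obtain ⟨y1, hy1, y3, hy3, rfl⟩ := Language.mem_mul.1 h0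
  obtain ⟨y0, hy0, y2, hy2, rfl⟩ := Language.mem_mul.1 hy1
  obtain ⟨u, rfl⟩ := toH_surj k
  have m2 : (pα ++ [lt]) ++ y0 ∈ E2 :=
    star_append (star_base (Language.append_mem_mul hα rfl)) hy0
  have m3 : y3 ++ ([lT] ++ [la] ++ [lt] ++ gl u ++ [lT] ++ [la] ++ pβ) ∈ E3 := by
    refine star_append hy3 (star_base ?_)
    refine Language.append_mem_mul (Language.append_mem_mul (Language.append_mem_mul
      (Language.append_mem_mul (Language.append_mem_mul (Language.append_mem_mul rfl rfl) rfl)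
        ⟨u, rfl, hk⟩) rfl) rfl) hβ
  refine ⟨((pα ++ [lt]) ++ y0) ++ y2 ++ (y3 ++ ([lT] ++ [la] ++ [lt] ++ gl u ++ [lT] ++ [la] ++ pβ)),
    Language.append_mem_mul (Language.append_mem_mul m2 hy2) m3, ?_⟩
  have h1 : evl va y0 * evl va y2 * evl va y3 = ι g0 := by
    rw [← h0', evl_append, evl_append]
  simp only [evl_append, ev_single, ev_gl, hα', hβ']
  change ι α * t * evl va y0 * evl va y2 * (evl va y3 *
    (t⁻¹ * ι (toH [none]) * t * ι (toH u) * t⁻¹ * ι (toH [none]) * ι β)) = _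
  have e1 : t * ι (toH u) * t⁻¹ = ι (σ (toH u)) := by rw [t_ι]; group
  have e2 : t * ι g0 * t⁻¹ = ι (σ g0) := by rw [t_ι]; group
  simp only [map_mul, ← e1, ← e2, ← h1]
  group

lemma complete (n : ℕ) : ∀ g : H, (∃ v : X, v.length ≤ n ∧ (g : Perm X) v ≠ v) →
    ∃ w ∈ Lm, evl va w = ι g := by
  induction n with
  | zero =>
    rintro g ⟨v, hv, hgv⟩
    have hv' : v = [] := List.length_eq_zero_iff.1 (by omega)
    subst hv'
    obtain ⟨u, rfl⟩ := toH_surj g
    exact absurd (wv_apply_nil u) hgv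
  | succ n ih =>
    rintro g ⟨v, hv, hgv⟩
    obtain ⟨u, rfl⟩ := toH_surj g
    by_cases hp : par u = true
    · refine ⟨[] ++ gl u ++ [], Language.append_mem_mul (Language.append_mem_mul
        (Language.nil_mem_kstar _) ⟨u, rfl, hp⟩) (Language.nil_mem_kstar _), ?_⟩
      rw [List.nil_append, List.append_nil, ev_gl]
    · have hp' : par u = false := by simpa using hp
      have hrel := sec_rel u
      set g0 := toH (sec false u) with hg0
      set g1 := toH (sec true u) with hg1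
      have hpair : (toH u : Perm X) = pair g0 g1 := by
        ext1 w
        change wv u w = _
        rcases w with _ | ⟨_ | _, w⟩
        · rw [wv_apply_nil]; rfl
        · rw [wv_apply, hp']; rfl
        · rw [wv_apply, hp']; rfl
      have hApair : ∀ k : H, θ k = 1 → ((toH [none] * σ k * toH [none] : H) : Perm X) = pair 1 k := by
        intro k hk
        rw [Subgroup.coe_mul, Subgroup.coe_mul, coe_σ, coe_a, hk, A_pair, mul_assoc, AA, mul_one]
        rfl
      have hAm : [la] ∈ Pa := Or.inr rfl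
      have h1m : ([] : List Al) ∈ Pa := Or.inl rfl
      have hAv : evl va [la] = ι (toH [none]) := by rw [ev_single]; rfl
      have h1v : evl va [] = ι 1 := (map_one ι).symm
      rcases v with _ | ⟨x, v⟩
      · exact absurd (wv_apply_nil u) hgv
      · have hgv' : wv (sec x u) v ≠ v := by
          intro h
          apply hgv
          change wv u (x :: v) = _
          rw [wv_apply, hp', h]; simp
        have hlen : v.length ≤ n := by simpa using hv
        cases x
        · obtain ⟨w0, hw0, hw0'⟩ := ih g0 ⟨v, hlen, hgv'⟩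
          have hk : θ ((θ g0)⁻¹ * g1) = 1 := by
            rw [map_mul, map_inv, hrel.1, inv_mul_cancel]
          obtain ⟨w, hw, hw'⟩ := Lm_step hw0 hw0' hk h1m h1v h1m h1v
          refine ⟨w, hw, ?_⟩
          rw [hw']
          congr 1
          apply Subtype.ext
          rw [one_mul, mul_one, Subgroup.coe_mul, hApair _ hk, coe_σ, pair_mul, mul_one, hpair]
          congr 1
          rw [Subgroup.coe_mul, Subgroup.coe_inv]; group
        · obtain ⟨w0, hw0, hw0'⟩ := ih g1 ⟨v, hlen, hgv'⟩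
          have hk : θ ((θ g1)⁻¹ * g0) = 1 := by
            rw [map_mul, map_inv, hrel.2, inv_mul_cancel]
          obtain ⟨w, hw, hw'⟩ := Lm_step hw0 hw0' hk hAm hAv hAm hAv
          refine ⟨w, hw, ?_⟩
          rw [hw']
          congr 1
          apply Subtype.ext
          rw [Subgroup.coe_mul, Subgroup.coe_mul, Subgroup.coe_mul, hApair _ hk, coe_σ, coe_a,
            mul_assoc A, pair_mul, mul_one, A_pair, mul_assoc, AA, mul_one, hpair]
          congr 1
          rw [Subgroup.coe_mul, Subgroup.coe_inv]; group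

lemma Lm_complete {g : H} (hg : g ≠ 1) : ∃ w ∈ Lm, evl va w = ι g := by
  have : ∃ v, (g : Perm X) v ≠ v := by
    by_contra h
    push Not at h
    exact hg (Subtype.ext (Equiv.ext h))
  obtain ⟨v, hv⟩ := this
  exact complete v.length g ⟨v, le_rfl, hv⟩

lemma nf_nat (γ : Γ) : ∃ (i : ℕ) (g : H) (j : ℕ), γ = (t ^ i)⁻¹ * ι g * t ^ j := by
  obtain ⟨i, g, k, rfl⟩ := nf γ
  rcases le_total 0 k with hk | hk
  · obtain ⟨m, hm⟩ := Int.eq_ofNat_of_zero_le hk
    exact ⟨i, g, m, by rw [hm, zpow_natCast]⟩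
  · obtain ⟨m, hm⟩ := Int.eq_ofNat_of_zero_le (neg_nonneg.2 hk)
    have hk' : k = -(m : ℤ) := by omega
    refine ⟨m + i, σ^[m] g, 0, ?_⟩
    rw [hk', zpow_neg, zpow_natCast, mul_assoc, ι_t_neg_pow, pow_add]; group

lemma LL_complete {γ : Γ} (hγ : γ ≠ 1) : ∃ w ∈ LL, evl va w = γ := by
  obtain ⟨i, g, j, rfl⟩ := nf_nat γ
  by_cases hg : g = 1
  · subst hg
    rw [map_one, mul_one] at hγ ⊢
    rcases lt_trichotomy i j with h | h | h
    · obtain ⟨m, rfl⟩ := Nat.exists_eq_add_of_lt h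
      obtain ⟨w, hw, hw'⟩ := E4_pow m
      refine ⟨[lt] ++ w, Or.inl (Or.inr (Language.append_mem_mul rfl hw)), ?_⟩
      rw [evl_append, hw', ev_single, show i + m + 1 = i + (m + 1) by ring, pow_add, pow_succ']
      change t * t ^ m = _
      group
    · subst h
      simp at hγ
    · obtain ⟨m, rfl⟩ := Nat.exists_eq_add_of_lt h
      obtain ⟨w, hw, hw'⟩ := E1_pow m
      refine ⟨[lT] ++ w, Or.inr (Language.append_mem_mul rfl hw), ?_⟩
      rw [evl_append, hw', ev_single, show j + m + 1 = j + (m + 1) by ring, pow_add, pow_succ]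
      change t⁻¹ * (t ^ m)⁻¹ = _
      group
  · obtain ⟨w1, h1, h1'⟩ := E1_pow i
    obtain ⟨w2, h2, h2'⟩ := Lm_complete hg
    obtain ⟨w3, h3, h3'⟩ := E4_pow j
    refine ⟨w1 ++ w2 ++ w3, Or.inl (Or.inl (Language.append_mem_mul
      (Language.append_mem_mul h1 h2) h3)), ?_⟩
    rw [evl_append, evl_append, h1', h2', h3']

lemma nil_notMem : [] ∉ LL := fun h => LL_sound h rfl

lemma va_injective : Function.Injective va := by
  have key : ∀ l l' : Option L, toH [l] = toH [l'] → l = l' := by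
    intro l l' h
    have h1 := congrArg (fun g : H => (g : Perm X) [false]) h
    have h2 := congrArg (fun g : H => (g : Perm X) [true, false]) h
    have h3 := congrArg (fun g : H => (g : Perm X) [false, true, false]) h
    revert h1 h2 h3
    rcases l with _ | _ | _ | _ <;> rcases l' with _ | _ | _ | _ <;> decide
  have he : ∀ l, e (va (Sum.inl l)) = 1 := fun l => e_ι _
  have ht : e (va lt) = Multiplicative.ofAdd 1 := e_t
  have hT : e (va lT) = Multiplicative.ofAdd (-1) := by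
    change e (t⁻¹) = _
    rw [map_inv, e_t]; rfl
  have n1 : (1 : Multiplicative ℤ) ≠ Multiplicative.ofAdd 1 := by decide
  have n2 : (1 : Multiplicative ℤ) ≠ Multiplicative.ofAdd (-1) := by decide
  have n3 : (Multiplicative.ofAdd 1 : Multiplicative ℤ) ≠ Multiplicative.ofAdd (-1) := by decide
  rintro (l | _ | _) (l' | _ | _) h
  · exact congrArg _ (key _ _ (ι_injective h))
  · exact absurd ((he l).symm.trans ((congrArg e h).trans hT)) n2
  · exact absurd ((he l).symm.trans ((congrArg e h).trans ht)) n1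
  · exact absurd ((he l').symm.trans ((congrArg e h.symm).trans hT)) n2
  · rfl
  · exact absurd (ht.symm.trans ((congrArg e h.symm).trans hT)) n3
  · exact absurd ((he l').symm.trans ((congrArg e h.symm).trans ht)) n1
  · exact absurd (ht.symm.trans ((congrArg e h).trans hT)) n3
  · rfl

end Pool.Agent.R653.Lys
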